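import Mathlib
import Pool.Agent.H788R3.Cor2.Asm2

/-!
Bounded functions which are holomorphic on complex lines are holomorphic; holomorphy from a
transversal coordinate.
-/

set_option autoImplicit false
set_option linter.unusedSectionVars false

open MeasureTheory Metric Set Filter Topology Complex
open scoped ContDiff

namespace Pool.Agent.Y263.GF

open Pool.Agent.H788R3.Cor2 (osgood2)

/-- the function is differentiable along all lines through points of `U` -/
def Lines {E : Type} [NormedAddCommGroup E] [NormedSpace ℂ E] (U : Set E) (H : E → ℂ) : Prop :=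
  ∀ x ∈ U, ∀ h : E, DifferentiableAt ℂ (fun t : ℂ => H (x + t • h)) 0

theorem Lines.comp {E F : Type} [NormedAddCommGroup E] [NormedSpace ℂ E] [NormedAddCommGroup F]
    [NormedSpace ℂ F] {U : Set E} {H : E → ℂ} (h : Lines U H) (L : F →ₗ[ℂ] E) (c : E) :
    Lines {y | c + L y ∈ U} (fun y => H (c + L y)) := by
  intro y hy v
  have h1 := h (c + L y) hy (L v)
  refine h1.congr_of_eventuallyEq (Eventually.of_forall (fun t => ?_))
  change H (c + L (y + t • v)) = H (c + L y + t • L v)
  rw [map_add, map_smul, add_assoc]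

theorem osg_fin (n : ℕ) : ∀ (U : Set (Fin n → ℂ)) (H : (Fin n → ℂ) → ℂ) (C : ℝ), IsOpen U →
    (∀ x ∈ U, ‖H x‖ ≤ C) → Lines U H → DifferentiableOn ℂ H U := by
  induction n with
  | zero =>
    intro U H C hU hb hl x hx
    have h1 : H = fun _ => H x := by
      funext y
      rw [Subsingleton.elim y x]
    rw [h1]
    exact differentiableWithinAt_const _
  | succ n ih =>
    intro U H C hU hb hl
    set L : ℂ × (Fin n → ℂ) →ₗ[ℂ] (Fin (n + 1) → ℂ) :=
      { toFun := fun p => Fin.cons p.1 p.2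
        map_add' := by
          intro p q
          funext i
          refine Fin.cases ?_ (fun j => ?_) i
          · simp
          · simp
        map_smul' := by
          intro c p
          funext i
          refine Fin.cases ?_ (fun j => ?_) i
          · simp
          · simp } with hL
    have hLa : ∀ p, L p = Fin.cons p.1 p.2 := fun p => rfl
    have hLc : Continuous L := LinearMap.continuous_of_finiteDimensional L
    have hD : IsOpen {p : ℂ × (Fin n → ℂ) | L p ∈ U} := hU.preimage hLc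
    have h1 : DifferentiableOn ℂ (fun p => H (L p)) {p : ℂ × (Fin n → ℂ) | L p ∈ U} := by
      refine osgood2 hD (fun p hp => hb _ hp) ?_ ?_
      · intro y w hw
        have h2 := hl (L (w, y)) hw (L (1, 0))
        have h3 : DifferentiableAt ℂ (fun w' : ℂ => w' - w) w := by fun_prop
        have h4 : DifferentiableAt ℂ (fun t : ℂ => H (L (w, y) + t • L (1, 0))) (w - w) := by
          rw [sub_self]
          exact h2
        have h5 := DifferentiableAt.comp (g := fun t : ℂ => H (L (w, y) + t • L (1, 0)))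
          (f := fun w' : ℂ => w' - w) w h4 h3
        refine (h5.congr_of_eventuallyEq (Eventually.of_forall (fun w' => ?_))).differentiableWithinAt
        change H (L (w', y)) = H (L (w, y) + (w' - w) • L (1, 0))
        rw [← map_smul, ← map_add]
        congr 2
        ext <;> simp
      · intro w
        have h2 : Lines {y : Fin n → ℂ | L (w, 0) + (L.comp (LinearMap.inr ℂ ℂ (Fin n → ℂ))) y ∈ U}
            (fun y => H (L (w, 0) + (L.comp (LinearMap.inr ℂ ℂ (Fin n → ℂ))) y)) :=
          hl.comp _ _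
        have h3 : ∀ y : Fin n → ℂ, L (w, 0) + (L.comp (LinearMap.inr ℂ ℂ (Fin n → ℂ))) y = L (w, y) := by
          intro y
          rw [LinearMap.comp_apply, LinearMap.inr_apply, ← map_add]
          simp
        simp only [h3] at h2
        exact ih _ _ C (hU.preimage (hLc.comp (by fun_prop : Continuous fun y : Fin n → ℂ => (w, y))))
          (fun y hy => hb _ hy) h2
    have h2 : Differentiable ℂ (fun x : Fin (n + 1) → ℂ => ((x 0, fun i => x i.succ) :
        ℂ × (Fin n → ℂ))) := by fun_prop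
    have h3 : ∀ x : Fin (n + 1) → ℂ, L (x 0, fun i => x i.succ) = x := by
      intro x
      rw [hLa]
      exact Fin.cons_self_tail x
    have h4 := h1.comp h2.differentiableOn (s := U) (fun x hx => by
      change L (x 0, fun i => x i.succ) ∈ U
      rw [h3]
      exact hx)
    refine h4.congr (fun x _ => ?_)
    change H x = H (L (x 0, fun i => x i.succ))
    rw [h3]

/-- **Holomorphy from lines.** -/
theorem osg_lines {E : Type} [NormedAddCommGroup E] [NormedSpace ℂ E] [FiniteDimensional ℂ E]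
    {U : Set E} (hU : IsOpen U) {H : E → ℂ} {C : ℝ} (hb : ∀ x ∈ U, ‖H x‖ ≤ C) (hl : Lines U H) :
    DifferentiableOn ℂ H U := by
  set n := Module.finrank ℂ E with hn
  have e : E ≃L[ℂ] (Fin n → ℂ) := ContinuousLinearEquiv.ofFinrankEq (by simp [hn])
  have h1 : Lines {y | (0 : E) + (e.symm : (Fin n → ℂ) →ₗ[ℂ] E) y ∈ U}
      (fun y => H (0 + (e.symm : (Fin n → ℂ) →ₗ[ℂ] E) y)) := hl.comp _ 0
  simp only [zero_add] at h1
  have h2 : DifferentiableOn ℂ (fun y => H (e.symm y)) {y | e.symm y ∈ U} :=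
    osg_fin n _ _ C (hU.preimage e.symm.continuous) (fun y hy => hb _ hy) h1
  have h3 := h2.comp e.differentiable.differentiableOn (s := U) (fun x hx => by
    change e.symm (e x) ∈ U
    rw [e.symm_apply_apply]
    exact hx)
  refine h3.congr (fun x _ => ?_)
  change H x = H (e.symm (e x))
  rw [e.symm_apply_apply]

/-- local inverses of holomorphic functions of one variable -/
theorem loc_inv {w : ℂ → ℂ} {V : Set ℂ} (hV : IsOpen V) (h0 : (0 : ℂ) ∈ V)
    (hw : DifferentiableOn ℂ w V) (hd : deriv w 0 ≠ 0) :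
    ∃ (Ω : Set ℂ) (τ : ℂ → ℂ), IsOpen Ω ∧ w 0 ∈ Ω ∧ DifferentiableOn ℂ τ Ω ∧ MapsTo τ Ω V ∧
      (∀ s ∈ Ω, w (τ s) = s) ∧ τ (w 0) = 0 ∧ ∀ᶠ t in 𝓝 (0 : ℂ), τ (w t) = t := by
  have hca : ContDiffAt ℂ ω w 0 := (hw.analyticAt (hV.mem_nhds h0)).contDiffAt
  have hw1 : ContDiffAt ℂ 1 w 0 := hca.of_le le_top
  have hda : HasDerivAt w (deriv w 0) 0 :=
    ((hw 0 h0).differentiableAt (hV.mem_nhds h0)).hasDerivAt
  set u : ℂˣ := Units.mk0 (deriv w 0) hd with hu
  set f' : ℂ ≃L[ℂ] ℂ := ContinuousLinearEquiv.unitsEquivAut ℂ u with hf'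
  have hfd : HasFDerivAt w (f' : ℂ →L[ℂ] ℂ) 0 := by
    have h1 := hda.hasFDerivAt
    have h2 : (f' : ℂ →L[ℂ] ℂ) = ContinuousLinearMap.toSpanSingleton ℂ (deriv w 0) := by
      refine ContinuousLinearMap.ext_ring ?_
      simp [hf', hu]
    rw [h2]
    exact h1
  set τ : ℂ → ℂ := hw1.localInverse hfd one_ne_zero with hτ
  have hstr : HasStrictFDerivAt w (f' : ℂ →L[ℂ] ℂ) 0 := hw1.hasStrictFDerivAt' hfd one_ne_zero
  have hc : ContDiffAt ℂ 1 τ (w 0) := hw1.to_localInverse hfd one_ne_zero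
  have e1 : ∀ᶠ s in 𝓝 (w 0), w (τ s) = s := hstr.eventually_right_inverse
  have e2 : ∀ᶠ t in 𝓝 (0 : ℂ), τ (w t) = t := hstr.eventually_left_inverse
  have e3 : τ (w 0) = 0 := hw1.localInverse_apply_image hfd one_ne_zero
  have e4 : ∀ᶠ s in 𝓝 (w 0), τ s ∈ V := by
    refine hc.continuousAt.eventually ?_
    rw [e3]
    exact hV.mem_nhds h0
  have e5 : ∀ᶠ s in 𝓝 (w 0), ContDiffAt ℂ 1 τ s := hc.eventually (by simp)
  obtain ⟨Ω, hΩ1, hΩ2, hΩ3⟩ := _root_.eventually_nhds_iff.1 (e1.and (e4.and e5))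
  refine ⟨Ω, τ, hΩ2, hΩ3, ?_, fun s hs => (hΩ1 s hs).2.1, fun s hs => (hΩ1 s hs).1, e3, e2⟩
  intro s hs
  exact ((hΩ1 s hs).2.2.differentiableAt one_ne_zero).differentiableWithinAt

/-- **Holomorphy from a transversal coordinate.** -/
theorem line_holo {E : Type} [NormedAddCommGroup E] [NormedSpace ℂ E] [FiniteDimensional ℂ E]
    {U : Set E} (hU : IsOpen U) {W : E → ℂ} (hW : DifferentiableOn ℂ W U)
    (hlp : ∀ x ∈ U, ∀ h : E, fderiv ℂ W x h = 0 → ∀ᶠ t in 𝓝 (0 : ℂ), W (x + t • h) = W x)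
    {H : E → ℂ} {C : ℝ} (hb : ∀ x ∈ U, ‖H x‖ ≤ C)
    (h1 : ∀ x ∈ U, ∀ h : E, (∀ᶠ t in 𝓝 (0 : ℂ), W (x + t • h) = W x) →
      DifferentiableAt ℂ (fun t : ℂ => H (x + t • h)) 0)
    (h2 : ∀ (Ω : Set ℂ) (γ : ℂ → E), IsOpen Ω → DifferentiableOn ℂ γ Ω → MapsTo γ Ω U →
      (∀ s ∈ Ω, W (γ s) = s) → DifferentiableOn ℂ (fun s => H (γ s)) Ω) :
    DifferentiableOn ℂ H U := by
  refine osg_lines hU hb (fun x hx h => ?_)
  by_cases h0 : fderiv ℂ W x h = 0
  · exact h1 x hx h (hlp x hx h h0)
  · have hline : Differentiable ℂ (fun t : ℂ => x + t • h) := by fun_prop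
    set V : Set ℂ := {t | x + t • h ∈ U} with hV
    have hVo : IsOpen V := hU.preimage hline.continuous
    have hV0 : (0 : ℂ) ∈ V := by simpa [hV] using hx
    have hwd : DifferentiableOn ℂ (fun t => W (x + t • h)) V :=
      hW.comp hline.differentiableOn (fun t ht => ht)
    have hder : deriv (fun t : ℂ => W (x + t • h)) 0 = fderiv ℂ W x h := by
      have h3 : HasFDerivAt W (fderiv ℂ W x) (x + (0 : ℂ) • h) := by
        rw [zero_smul, add_zero]
        exact ((hW x hx).differentiableAt (hU.mem_nhds hx)).hasFDerivAt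
      have h4 : HasDerivAt (fun t : ℂ => x + t • h) h 0 := by
        have h5 : HasDerivAt (fun t : ℂ => t • h) ((1 : ℂ) • h) 0 :=
          (hasDerivAt_id (0 : ℂ)).smul_const h
        rw [one_smul] at h5
        exact h5.const_add x
      exact (h3.comp_hasDerivAt (0 : ℂ) h4).deriv
    obtain ⟨Ω, τ, a1, a2, a3, a4, a5, a6, a7⟩ := loc_inv hVo hV0 hwd (by rwa [hder])
    have h3 := h2 Ω (fun s => x + τ s • h) a1 (a3.smul_const h |>.const_add x)
      (fun s hs => a4 hs) (fun s hs => a5 s hs)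
    have h4 : DifferentiableAt ℂ (fun s => H (x + τ s • h)) (W (x + (0 : ℂ) • h)) :=
      h3.differentiableAt (a1.mem_nhds a2)
    have h5 : DifferentiableAt ℂ (fun t : ℂ => W (x + t • h)) 0 :=
      hwd.differentiableAt (hVo.mem_nhds hV0)
    have h6 := DifferentiableAt.comp (g := fun s => H (x + τ s • h))
      (f := fun t : ℂ => W (x + t • h)) 0 h4 h5
    refine h6.congr_of_eventuallyEq ?_
    filter_upwards [a7] with t ht
    change H (x + t • h) = H (x + τ (W (x + t • h)) • h)
    rw [ht]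

end Pool.Agent.Y263.GF
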