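import Mathlib
import Pool.Agent.Y263.GF.Osg

/-!
Holomorphic functions with affine fibres: measurable description of the fibres.
-/

set_option autoImplicit false
set_option linter.unusedSectionVars false

open MeasureTheory Metric Set Filter Topology Complex
open scoped ContDiff

namespace Pool.Agent.Y263.GF

variable {X : Type} [NormedAddCommGroup X] [InnerProductSpace ℂ X]

/-- holomorphic functions on `U` whose fibres are affine: the fibre through `z` is the intersection
of `U` with the affine subspace `z + ker ψ'(z)` -/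
structure AF (U : Set X) (ψ : X → ℂ) : Prop where
  diff : DifferentiableOn ℂ ψ U
  fib : ∀ z ∈ U, ∀ z' ∈ U, ψ z' = ψ z ↔ fderiv ℂ ψ z (z' - z) = 0

theorem AF.lp {U : Set X} {ψ : X → ℂ} (h : AF U ψ) (hU : IsOpen U) {z : X} (hz : z ∈ U) {c : X}
    (hc : fderiv ℂ ψ z c = 0) : ∀ᶠ t in 𝓝 (0 : ℂ), ψ (z + t • c) = ψ z := by
  have h1 : Continuous (fun t : ℂ => z + t • c) := by fun_prop
  have h2 : ∀ᶠ t in 𝓝 (0 : ℂ), z + t • c ∈ U := by
    refine h1.continuousAt.eventually (hU.mem_nhds ?_)
    simpa using hz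
  filter_upwards [h2] with t ht
  refine (h.fib z hz _ ht).2 ?_
  rw [add_sub_cancel_left, map_smul, hc, smul_zero]

/-- measurable description of the fibres -/
theorem AF.meas [FiniteDimensional ℂ X] [MeasurableSpace X] [BorelSpace X] {U : Set X}
    {ψ : X → ℂ} (h : AF U ψ) (hU : IsOpen U) (hne : U.Nonempty) :
    ∃ (A : ℂ → X) (b : ℂ → ℂ), Measurable A ∧ Measurable b ∧
      ∀ z ∈ U, ∀ ζ, ψ z = ζ ↔ (inner ℂ (A ζ) z : ℂ) = b ζ := by
  classical
  by_cases h0 : ∃ z0 ∈ U, fderiv ℂ ψ z0 = 0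
  · obtain ⟨z0, hz0, hd0⟩ := h0
    have hconst : ∀ z ∈ U, ψ z = ψ z0 := fun z hz => (h.fib z0 hz0 z hz).2 (by simp [hd0])
    refine ⟨fun _ => 0, fun ζ => if ζ = ψ z0 then 0 else 1, measurable_const,
      Measurable.ite (measurableSet_singleton (ψ z0)) measurable_const measurable_const, ?_⟩
    intro z hz ζ
    rw [hconst z hz, inner_zero_left]
    by_cases hζ : ζ = ψ z0
    · simp [hζ]
    · beta_reduce
      rw [if_neg hζ]
      constructor
      · intro h1
        exact absurd h1.symm hζ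
      · intro h1
        exact absurd h1 (by norm_num)
  · push Not at h0
    -- local sections
    have hsec : ∀ z : U, ∃ (Ω : Set ℂ) (σ : ℂ → X), IsOpen Ω ∧ ψ z ∈ Ω ∧ ContinuousOn σ Ω ∧
        (∀ s ∈ Ω, σ s ∈ U) ∧ ∀ s ∈ Ω, ψ (σ s) = s := by
      rintro ⟨z, hz⟩
      obtain ⟨c, hc⟩ : ∃ c, fderiv ℂ ψ z c ≠ 0 := by
        by_contra hno
        push Not at hno
        exact h0 z hz (ContinuousLinearMap.ext hno)
      have hline : Differentiable ℂ (fun t : ℂ => z + t • c) := by fun_prop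
      set V : Set ℂ := {t | z + t • c ∈ U} with hV
      have hVo : IsOpen V := hU.preimage hline.continuous
      have hV0 : (0 : ℂ) ∈ V := by simpa [hV] using hz
      have hwd : DifferentiableOn ℂ (fun t => ψ (z + t • c)) V :=
        h.diff.comp hline.differentiableOn (fun t ht => ht)
      have hder : deriv (fun t : ℂ => ψ (z + t • c)) 0 = fderiv ℂ ψ z c := by
        have h3 : HasFDerivAt ψ (fderiv ℂ ψ z) (z + (0 : ℂ) • c) := by
          rw [zero_smul, add_zero]
          exact ((h.diff z hz).differentiableAt (hU.mem_nhds hz)).hasFDerivAt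
        have h4 : HasDerivAt (fun t : ℂ => z + t • c) c 0 := by
          have h5 : HasDerivAt (fun t : ℂ => t • c) ((1 : ℂ) • c) 0 :=
            (hasDerivAt_id (0 : ℂ)).smul_const c
          rw [one_smul] at h5
          exact h5.const_add z
        exact (h3.comp_hasDerivAt (0 : ℂ) h4).deriv
      obtain ⟨Ω, τ, a1, a2, a3, a4, a5, -, -⟩ := loc_inv hVo hV0 hwd (by rwa [hder])
      refine ⟨Ω, fun s => z + τ s • c, a1, ?_, ?_, fun s hs => a4 hs, fun s hs => a5 s hs⟩
      · simpa using a2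
      · exact continuousOn_const.add (a3.continuousOn.smul continuousOn_const)
    choose Ω σ hΩo hΩm hσc hσU hσψ using hsec
    obtain ⟨T, hTc, hTU⟩ := TopologicalSpace.isOpen_iUnion_countable Ω hΩo
    obtain ⟨z1, hz1⟩ := hne
    have hTne : T.Nonempty := by
      have h1 : ψ z1 ∈ ⋃ i, Ω i := mem_iUnion.2 ⟨⟨z1, hz1⟩, hΩm ⟨z1, hz1⟩⟩
      rw [← hTU] at h1
      obtain ⟨i, hi, -⟩ := mem_iUnion₂.1 h1
      exact ⟨i, hi⟩
    obtain ⟨e, he⟩ := hTc.exists_eq_range hTne
    have hcov : ∀ z ∈ U, ∃ n, ψ z ∈ Ω (e n) := by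
      intro z hz
      have h1 : ψ z ∈ ⋃ i, Ω i := mem_iUnion.2 ⟨⟨z, hz⟩, hΩm ⟨z, hz⟩⟩
      rw [← hTU] at h1
      obtain ⟨i, hi, hi2⟩ := mem_iUnion₂.1 h1
      rw [he] at hi
      obtain ⟨n, rfl⟩ := hi
      exact ⟨n, hi2⟩
    -- the sections as measurable functions
    set s : ℕ → ℂ → X := fun n => (Ω (e n)).indicator (σ (e n)) with hs
    have hsm : ∀ n, Measurable (s n) := by
      intro n
      rw [hs]
      beta_reduce
      rw [← Set.piecewise_eq_indicator]
      exact ContinuousOn.measurable_piecewise (hσc (e n)) continuousOn_const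
        (hΩo (e n)).measurableSet
    have hseq : ∀ n, ∀ ζ ∈ Ω (e n), s n ζ = σ (e n) ζ := fun n ζ hζ => indicator_of_mem hζ _
    set Gr : X → X := fun z => (InnerProductSpace.toDual ℂ X).symm (fderiv ℂ ψ z) with hGr
    have hGrm : Measurable Gr :=
      (InnerProductSpace.toDual ℂ X).symm.continuous.measurable.comp (measurable_fderiv ℂ ψ)
    have hGri : ∀ z x, (inner ℂ (Gr z) x : ℂ) = fderiv ℂ ψ z x := fun z x =>
      InnerProductSpace.toDual_symm_apply
    set pr : ℕ → ℂ → Prop := fun n ζ => match n with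
      | 0 => ∀ m, ζ ∉ Ω (e m)
      | (n + 1) => ζ ∈ Ω (e n) with hpr
    set FA : ℕ → ℂ → X × ℂ := fun n ζ => match n with
      | 0 => (0, 1)
      | (n + 1) => (Gr (s n ζ), inner ℂ (Gr (s n ζ)) (s n ζ)) with hFA
    have hpm : ∀ n, MeasurableSet {ζ | pr n ζ} := by
      intro n
      cases n with
      | zero =>
        have h1 : {ζ | pr 0 ζ} = ⋂ m, (Ω (e m))ᶜ := by
          ext ζ
          simp [hpr]
        rw [h1]
        exact MeasurableSet.iInter (fun m => (hΩo (e m)).measurableSet.compl)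
      | succ n => exact (hΩo (e n)).measurableSet
    have hFm : ∀ n, Measurable (FA n) := by
      intro n
      cases n with
      | zero => exact measurable_const
      | succ n =>
        have h1 : Measurable (fun ζ => Gr (s n ζ)) := hGrm.comp (hsm n)
        exact h1.prodMk (h1.inner (hsm n))
    have hex : ∀ ζ, ∃ n, pr n ζ := by
      intro ζ
      by_cases h1 : ∀ m, ζ ∉ Ω (e m)
      · exact ⟨0, h1⟩
      · push Not at h1
        obtain ⟨m, hm⟩ := h1
        exact ⟨m + 1, hm⟩
    have hFind : Measurable (fun ζ => FA (Nat.find (hex ζ)) ζ) := Measurable.find hFm hpm hex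
    refine ⟨fun ζ => (FA (Nat.find (hex ζ)) ζ).1, fun ζ => (FA (Nat.find (hex ζ)) ζ).2,
      measurable_fst.comp hFind, measurable_snd.comp hFind, ?_⟩
    intro z hz ζ
    have hspec := Nat.find_spec (hex ζ)
    beta_reduce
    generalize Nat.find (hex ζ) = n at hspec ⊢
    cases n with
    | zero =>
      have h1 : ∀ m, ζ ∉ Ω (e m) := hspec
      constructor
      · intro h2
        obtain ⟨n, hn⟩ := hcov z hz
        rw [h2] at hn
        exact absurd hn (h1 n)
      · intro h2
        change (inner ℂ (0 : X) z : ℂ) = 1 at h2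
        rw [inner_zero_left] at h2
        exact absurd h2 (by norm_num)
    | succ n =>
      have h1 : ζ ∈ Ω (e n) := hspec
      have h2 : s n ζ ∈ U := by rw [hseq n ζ h1]; exact hσU _ _ h1
      have h3 : ψ (s n ζ) = ζ := by rw [hseq n ζ h1]; exact hσψ _ _ h1
      change ψ z = ζ ↔ (inner ℂ (Gr (s n ζ)) z : ℂ) = inner ℂ (Gr (s n ζ)) (s n ζ)
      rw [hGri, hGri, ← sub_eq_zero (a := fderiv ℂ ψ (s n ζ) z), ← map_sub, ← h.fib _ h2 z hz, h3]

end Pool.Agent.Y263.GF
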