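import Mathlib
import Pool.Agent.Y263.LF.Dom
import Pool.Agent.Y263.GF.Osg

/-!
Domains with functions whose fibres are affine; measurable families of affine slices; the extension
property for slices.
-/

set_option autoImplicit false
set_option linter.unusedSectionVars false

open MeasureTheory Metric Set Filter Topology Complex
open scoped ContDiff

namespace Pool.Agent.Y263.GF

open Pool.Agent.Y263.LF (OP PQ eV inner_eV)

/-- a domain `Ω` with functions `ψ k` whose fibres are affine -/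
structure Geo (X : Type) [NormedAddCommGroup X] [InnerProductSpace ℂ X] [MeasurableSpace X]
    (κ : Type) where
  Ω : Set X
  ψ : κ → X → ℂ
  r : ℝ
  A : κ → ℂ → X
  b : κ → ℂ → ℂ
  Adm : (X →L[ℂ] X) → Prop
  cs : κ → (X →L[ℂ] X) → X → Prop
  cv : κ → (X →L[ℂ] X) → X → ℂ
  op : IsOpen Ω
  r0 : 0 < r
  r1 : r < 1
  ψd : ∀ k, DifferentiableOn ℂ (ψ k) Ω
  ψm : ∀ k, Measurable (ψ k)
  ψr : ∀ k, ∀ z ∈ Ω, ‖ψ k z‖ < r
  Am : ∀ k, Measurable (A k)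
  bm : ∀ k, Measurable (b k)
  fib : ∀ k, ∀ z ∈ Ω, ∀ ζ, ψ k z = ζ ↔ (inner ℂ (A k ζ) z : ℂ) = b k ζ
  lp : ∀ k, ∀ z ∈ Ω, ∀ c, fderiv ℂ (ψ k) z c = 0 → ∀ᶠ t in 𝓝 (0 : ℂ), ψ k (z + t • c) = ψ k z
  admP : ∀ P, Adm P → ∀ k ζ, P (A k ζ) ≠ 0 → Adm (PQ P (P (A k ζ)))
  adm1 : Adm (ContinuousLinearMap.id ℂ X)
  csm : ∀ k (Θ : Type) [MeasurableSpace Θ] (P : Θ → X →L[ℂ] X) (p : Θ → X),
    Measurable (fun q : Θ × X => P q.1 q.2) → Measurable p → MeasurableSet {θ | cs k (P θ) (p θ)}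
  cvm : ∀ k (Θ : Type) [MeasurableSpace Θ] (P : Θ → X →L[ℂ] X) (p : Θ → X),
    Measurable (fun q : Θ × X => P q.1 q.2) → Measurable p → Measurable (fun θ => cv k (P θ) (p θ))
  cs1 : ∀ k P p, OP P → Adm P → P p = 0 → cs k P p → ∀ z ∈ Ω, z - P z = p → ψ k z = cv k P p
  cs2 : ∀ k P p, OP P → Adm P → P p = 0 → ¬ cs k P p → ∀ z ∈ Ω, z - P z = p →
    P (A k (ψ k z)) ≠ 0

section

variable {X : Type} [NormedAddCommGroup X] [InnerProductSpace ℂ X] [MeasurableSpace X]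
  {κ : Type} {N : ℕ}

/-- the set where the functions attached to the elements of `I` are small -/
def Dom (g : Geo X κ) (f : κ → Fin N → ℂ → ℂ) (I : Finset κ) (ε : ℝ) : Set X :=
  {z | z ∈ g.Ω ∧ ∀ k ∈ I, ∀ i, ‖f k i (g.ψ k z)‖ < ε}

/-- functions in the unit ball of `H^∞` of the disc -/
structure FD (f : κ → Fin N → ℂ → ℂ) : Prop where
  fd : ∀ k i, DifferentiableOn ℂ (f k i) (ball 0 1)
  fb : ∀ k i, ∀ z ∈ ball (0 : ℂ) 1, ‖f k i z‖ ≤ 1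
  fm : ∀ k i, Measurable (f k i)

variable {g : Geo X κ} {f : κ → Fin N → ℂ → ℂ} {I : Finset κ} {ε : ℝ}

theorem Geo.mem (g : Geo X κ) (k : κ) {z : X} (hz : z ∈ g.Ω) : g.ψ k z ∈ ball (0 : ℂ) 1 := by
  rw [mem_ball_zero_iff]
  exact (g.ψr k z hz).trans g.r1

theorem Geo.ψdAt (g : Geo X κ) (k : κ) {z : X} (hz : z ∈ g.Ω) : DifferentiableAt ℂ (g.ψ k) z :=
  (g.ψd k).differentiableAt (g.op.mem_nhds hz)

theorem FD.diffAt (hf : FD f) (g : Geo X κ) (k : κ) (i : Fin N) {z : X} (hz : z ∈ g.Ω) :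
    DifferentiableAt ℂ (fun z : X => f k i (g.ψ k z)) z := by
  have h1 : DifferentiableAt ℂ (f k i) (g.ψ k z) :=
    (hf.fd k i).differentiableAt (isOpen_ball.mem_nhds (g.mem k hz))
  exact DifferentiableAt.comp (g := f k i) z h1 (g.ψdAt k hz)

theorem FD.open (hf : FD f) (g : Geo X κ) (I : Finset κ) (ε : ℝ) : IsOpen (Dom g f I ε) := by
  rw [isOpen_iff_mem_nhds]
  rintro z ⟨hz, hzi⟩
  have h1 : ∀ᶠ y in 𝓝 z, ∀ k ∈ I, ∀ i, ‖f k i (g.ψ k y)‖ < ε := by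
    rw [Filter.eventually_all_finset]
    intro k hk
    rw [Filter.eventually_all]
    intro i
    exact (hf.diffAt g k i hz).continuousAt.norm.eventually (gt_mem_nhds (hzi k hk i))
  filter_upwards [h1, g.op.mem_nhds hz] with y hy1 hy2
  exact ⟨hy2, hy1⟩

theorem Dom_mono {ε' : ℝ} (h : ε' ≤ ε) : Dom g f I ε' ⊆ Dom g f I ε :=
  fun _ hz => ⟨hz.1, fun k hk i => lt_of_lt_of_le (hz.2 k hk i) h⟩

theorem Dom_sub {J : Finset κ} (h : I ⊆ J) : Dom g f J ε ⊆ Dom g f I ε :=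
  fun _ hz => ⟨hz.1, fun k hk i => hz.2 k (h hk) i⟩

theorem mem_insert_iff [DecidableEq κ] {k : κ} {z : X} :
    z ∈ Dom g f (insert k I) ε ↔ z ∈ Dom g f I ε ∧ ∀ i, ‖f k i (g.ψ k z)‖ < ε := by
  constructor
  · rintro ⟨h1, h2⟩
    exact ⟨⟨h1, fun j hj => h2 j (Finset.mem_insert_of_mem hj)⟩,
      h2 k (Finset.mem_insert_self _ _)⟩
  · rintro ⟨⟨h1, h2⟩, h3⟩
    refine ⟨h1, fun j hj => ?_⟩
    rcases Finset.mem_insert.1 hj with rfl | hj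
    · exact h3
    · exact h2 j hj

/-- measurable families of affine slices -/
structure Sli (g : Geo X κ) {Θ : Type} [MeasurableSpace Θ] (P : Θ → X →L[ℂ] X) (p : Θ → X) :
    Prop where
  Pm : Measurable (fun q : Θ × X => P q.1 q.2)
  pm : Measurable p
  op : ∀ θ, OP (P θ)
  adm : ∀ θ, g.Adm (P θ)
  p0 : ∀ θ, P θ (p θ) = 0

/-- extension of measurable families of bounded holomorphic functions on slices of `U` to `U'` -/
def Ext0 (g : Geo X κ) (U U' : Set X) (C : ℝ) : Prop :=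
  ∀ (Θ : Type) [MeasurableSpace Θ] (P : Θ → X →L[ℂ] X) (p : Θ → X), Sli g P p →
    ∀ (v : Θ → X → ℂ) (M : ℝ), 0 ≤ M → Measurable (fun q : Θ × X => v q.1 q.2) →
    (∀ θ, DifferentiableOn ℂ (fun x => v θ (p θ + P θ x)) {x | p θ + P θ x ∈ U}) →
    (∀ θ z, z - P θ z = p θ → z ∈ U → ‖v θ z‖ ≤ M) →
    ∃ F : Θ → X → ℂ, Measurable (fun q : Θ × X => F q.1 q.2) ∧
      (∀ θ, DifferentiableOn ℂ (F θ) U') ∧ (∀ θ, ∀ z ∈ U', ‖F θ z‖ ≤ C * M) ∧
      (∀ θ z, z - P θ z = p θ → z ∈ U' → F θ z = v θ z)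

theorem sl_id {P : X →L[ℂ] X} (hP : OP P) {p : X} (hp : P p = 0) (x : X) :
    (p + P x) - P (p + P x) = p := by
  rw [map_add, hp, hP.idem]
  abel

end

end Pool.Agent.Y263.GF
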