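import Mathlib
import Pool.Agent.Y263.GF.Dom
import Pool.Agent.Y263.LF.Step

/-!
The operator in the induction step, for functions with affine fibres.
-/

set_option autoImplicit false
set_option linter.unusedSectionVars false

open MeasureTheory Metric Set Filter Topology Complex
open scoped ContDiff

namespace Pool.Agent.Y263.GF

open Pool.Agent.H720R2 Pool.Agent.H720R2.HP
open Pool.Agent.H788R3.Cor2 (cy yc cy_mem cy_mem' cy_diff cy_diffAt cy_yc yc_im yc_diff osgood2)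
open Pool.Agent.Y263.SC (Ov slice_open Den AA den1' BK)
open Pool.Agent.Y263.LF (OP PQ eV inner_eV PQ_apply P_eV inner_Pu u_eV Pu_PQ P_PQ u_PQ PQ_eV
  PQ_zero Bdd VJ VJ_bound VJ_weak VJ_diff2 VJ_holo VJ_meas cy_meas yc_meas cy_lt)

section

variable {E : Type} [NormedAddCommGroup E] [NormedSpace ℂ E] [FiniteDimensional ℂ E]
variable {D : Set (ℂ × E)} {A : Set ℂ} {e : ℂ → ℂ × E → ℂ}
variable {ι : Type} {S : Finset ι} {a : ι → ℂ} {R : ι → Set ℂ} {Cp : ℝ}

/-- the d-bar equation along a holomorphic curve -/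
theorem VJ_curve [MeasurableSpace E] [BorelSpace E] (hr : Ov D) (hF : Fam S a R Cp) {μ : ℂ → ℂ}
    {K M : ℝ} (hB : Bdd D A M e) (hem : Measurable (fun q : ℂ × (ℂ × E) => e q.1 q.2))
    (hM0 : 0 ≤ M) (hD : Den A S a R μ K) {Ω : Set ℂ} (hΩ : IsOpen Ω) {γ : ℂ → E}
    (hγ : DifferentiableOn ℂ γ Ω) (hm : ∀ w ∈ Ω, (w, γ w) ∈ D) :
    WD Ω (fun w => VJ D e S a R μ (w, γ w)) (fun w => μ w * e w (w, γ w)) := by
  classical
  set D' : Set (ℂ × ℂ) := {q | q.1 ∈ Ω} with hD'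
  have hOv : Ov D' := ⟨hΩ.preimage continuous_fst, fun q hq => hr.im _ (hm _ hq)⟩
  set γ' : ℂ → E := Ω.indicator γ with hγ'
  have hγeq : ∀ w ∈ Ω, γ' w = γ w := fun w hw => indicator_of_mem hw _
  have hγm : Measurable γ' := by
    rw [hγ', ← Set.piecewise_eq_indicator]
    exact ContinuousOn.measurable_piecewise hγ.continuousOn continuousOn_const hΩ.measurableSet
  set e' : ℂ → ℂ × ℂ → ℂ := fun ζ q => e ζ (q.1, γ' q.1) with he'
  have hB' : Bdd D' A M e' := by
    refine ⟨fun y => ?_, fun ζ hζ => ?_, fun ζ hζ q hq => ?_⟩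
    · have h1 : Measurable (fun q : ℂ × ℂ => (q.1, (q.2, γ' q.2))) :=
        measurable_fst.prodMk (measurable_snd.prodMk (hγm.comp measurable_snd))
      exact hem.comp h1
    · intro q hq
      have h1 : DifferentiableAt ℂ (e ζ) (q.1, γ q.1) :=
        (hB.diff ζ hζ).differentiableAt (hr.op.mem_nhds (hm _ hq))
      have h2 : DifferentiableAt ℂ γ q.1 := hγ.differentiableAt (hΩ.mem_nhds hq)
      have h3 : DifferentiableAt ℂ (fun q : ℂ × ℂ => (q.1, γ q.1)) q :=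
        differentiableAt_fst.prodMk
          (DifferentiableAt.comp (g := γ) (f := fun q : ℂ × ℂ => q.1) q h2 differentiableAt_fst)
      have h4 := DifferentiableAt.comp (g := e ζ) q h1 h3
      refine (h4.congr_of_eventuallyEq ?_).differentiableWithinAt
      filter_upwards [hOv.op.mem_nhds hq] with q' hq'
      change e ζ (q'.1, γ' q'.1) = e ζ (q'.1, γ q'.1)
      rw [hγeq _ hq']
    · change ‖e ζ (q.1, γ' q.1)‖ ≤ M
      rw [hγeq _ hq]
      exact hB.bd ζ hζ _ (hm _ hq)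
  have h1 := VJ_weak hOv hF hB' hM0 hD (0 : ℂ)
  refine h1.congr hΩ (fun w hw => ?_) (fun w hw => ?_)
  · have h2 : ∀ ζ, BK D e S a R μ (γ w) ζ w = BK D' e' S a R μ 0 ζ w := by
      intro ζ
      unfold BK
      refine Finset.sum_congr rfl (fun k _ => ?_)
      by_cases hζ : ζ ∈ R k
      · have h3 : (ζ, w) ∈ (R k) ×ˢ {w' : ℂ | (w', γ w) ∈ D} := ⟨hζ, hm w hw⟩
        have h4 : (ζ, w) ∈ (R k) ×ˢ {w' : ℂ | (w', (0 : ℂ)) ∈ D'} := ⟨hζ, hw⟩
        rw [indicator_of_mem h3, indicator_of_mem h4]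
        change μ ζ * e ζ (w, γ w) * _ = μ ζ * e ζ (w, γ' w) * _
        rw [hγeq w hw]
      · have h3 : (ζ, w) ∉ (R k) ×ˢ {w' : ℂ | (w', γ w) ∈ D} := fun h => hζ h.1
        have h4 : (ζ, w) ∉ (R k) ×ˢ {w' : ℂ | (w', (0 : ℂ)) ∈ D'} := fun h => hζ h.1
        rw [indicator_of_notMem h3, indicator_of_notMem h4]
    unfold VJ CT
    simp only [h2]
  · change μ w * e w (w, γ w) = μ w * e w (w, γ' w)
    rw [hγeq w hw]

end

/-- the product domain -/
def DU {X : Type} (U : Set X) : Set (ℂ × X) := {q | 0 < q.1.im ∧ q.2 ∈ U}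

theorem DU_ov {X : Type} [NormedAddCommGroup X] [NormedSpace ℂ X] {U : Set X} (hU : IsOpen U) :
    Ov (DU U) :=
  ⟨(isOpen_lt continuous_const (Complex.continuous_im.comp continuous_fst)).inter
    (hU.preimage continuous_snd), fun _ hq => hq.1⟩

section

variable {X : Type} [NormedAddCommGroup X] [InnerProductSpace ℂ X] [MeasurableSpace X]
  {κ : Type} {N : ℕ}

theorem Geo.cyd (g : Geo X κ) {f : κ → Fin N → ℂ → ℂ} (hf : FD f) (k : κ) (i : Fin N) :
    DifferentiableOn ℂ (fun w => f k i (cy g.r w)) {w : ℂ | -((1 - g.r ^ 2) / 16) < w.im} :=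
  (hf.fd k i).comp (cy_diff g.r0 g.r1) (fun _ hw => cy_mem g.r0 g.r1 hw)

theorem Geo.cyd' (g : Geo X κ) {f : κ → Fin N → ℂ → ℂ} (hf : FD f) (k : κ) (i : Fin N) :
    DifferentiableOn ℂ (fun w => f k i (cy g.r w)) UH := by
  refine (g.cyd hf k i).mono (fun w hw => ?_)
  have h1 : (0 : ℝ) < w.im := hw
  have h2 := g.r0
  have h3 := g.r1
  change -((1 - g.r ^ 2) / 16) < w.im
  nlinarith

theorem Geo.nice (g : Geo X κ) {f : κ → Fin N → ℂ → ℂ} (hf : FD f) (k : κ) (i : Fin N) :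
    Nice (fun w => f k i (cy g.r w)) ((1 - g.r ^ 2) / 16) := by
  have h2 := g.r0
  have h3 := g.r1
  refine ⟨by nlinarith, g.cyd hf k i, fun w hw => hf.fb k i _ (cy_mem g.r0 g.r1 ?_)⟩
  have h1 : (0 : ℝ) ≤ w.im := hw
  nlinarith

theorem Geo.lim (g : Geo X κ) {f : κ → Fin N → ℂ → ℂ} (hf : FD f) (k : κ) (i : Fin N) :
    ∃ c : ℂ, Tendsto (fun w => f k i (cy g.r w))
      (Bornology.cobounded ℂ ⊓ 𝓟 {w : ℂ | 0 ≤ w.im}) (𝓝 c) := by
  refine ⟨f k i ((g.r : ℂ) * 1), ?_⟩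
  refine Tendsto.mono_left ?_ inf_le_left
  have hmem : (g.r : ℂ) * 1 ∈ ball (0 : ℂ) 1 := by
    rw [mem_ball_zero_iff, mul_one, Complex.norm_real, Real.norm_of_nonneg g.r0.le]
    exact g.r1
  have hc : ContinuousAt (f k i) ((g.r : ℂ) * 1) :=
    ((hf.fd k i).differentiableAt (isOpen_ball.mem_nhds hmem)).continuousAt
  exact hc.tendsto.comp (TB.cay_tendsto.const_mul (g.r : ℂ))

/-- the coordinate in the half plane -/
noncomputable def Geo.W (g : Geo X κ) (k : κ) (z : X) : ℂ := yc g.r (g.ψ k z)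

theorem Geo.W_im (g : Geo X κ) (k : κ) {z : X} (hz : z ∈ g.Ω) : 0 < (g.W k z).im :=
  yc_im g.r0 (g.ψr k z hz)

theorem Geo.cy_W (g : Geo X κ) (k : κ) {z : X} (hz : z ∈ g.Ω) : cy g.r (g.W k z) = g.ψ k z :=
  cy_yc g.r0 (g.ψr k z hz)

theorem Geo.W_diff (g : Geo X κ) (k : κ) {z : X} (hz : z ∈ g.Ω) :
    DifferentiableAt ℂ (g.W k) z :=
  DifferentiableAt.comp (g := yc g.r) z (yc_diff g.r0 (g.ψr k z hz)) (g.ψdAt k hz)

theorem Geo.W_meas (g : Geo X κ) (k : κ) : Measurable (g.W k) := (yc_meas g.r).comp (g.ψm k)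

end

/-- **The operator.** -/
theorem opG {N : ℕ} {X : Type} [NormedAddCommGroup X] [InnerProductSpace ℂ X]
    [FiniteDimensional ℂ X] [MeasurableSpace X] [BorelSpace X] {κ : Type} [DecidableEq κ]
    {g : Geo X κ} {f : κ → Fin N → ℂ → ℂ} (hf : FD f) {J : Finset κ} {k : κ}
    {ε ε₁ C₁ : ℝ} (H : Ext0 g (Dom g f J ε) (Dom g f J ε₁) C₁) (hC₁ : 0 ≤ C₁)
    {δ : ℝ} (hδ : δ < ε) {ε' C : ℝ} (hε' : 0 < ε') (hC : 0 ≤ C)
    {Θ : Type} [MeasurableSpace Θ] {P : Θ → X →L[ℂ] X} {p : Θ → X} (hS : Sli g P p)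
    {v : Θ → X → ℂ} {M : ℝ} (hM : 0 ≤ M)
    (hv : Measurable (fun q : Θ × X => v q.1 q.2))
    (hvd : ∀ θ, DifferentiableOn ℂ (fun x => v θ (p θ + P θ x))
      {x | p θ + P θ x ∈ Dom g f (insert k J) ε})
    (hvb : ∀ θ z, z - P θ z = p θ → z ∈ Dom g f (insert k J) ε → ‖v θ z‖ ≤ M)
    {ι : Type} {S : Finset ι} {a : ι → ℂ} {R : ι → Set ℂ} {χ : Option (Fin N) → ℂ → ℂ}
    (hcut : CutP (fun i w => f k i (cy g.r w)) δ ε' C S a R χ) :
    ∃ Φ : Fin N → Θ → ℂ × X → ℂ,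
      (∀ i, Measurable (fun q : Θ × (ℂ × X) => Φ i q.1 q.2)) ∧
      (∀ i θ, ∀ q ∈ DU (Dom g f J ε₁),
        ‖Φ i θ q‖ ≤ 2160 * Real.exp C * (C / ε') * (C₁ * M)) ∧
      (∀ i θ, ¬ g.cs k (P θ) (p θ) → ∀ (Ω' : Set ℂ) (γ : ℂ → X), IsOpen Ω' →
        DifferentiableOn ℂ γ Ω' → MapsTo γ Ω' (Dom g f J ε₁) → (∀ s ∈ Ω', 0 < s.im) →
        (∀ s ∈ Ω', g.ψ k (γ s) = cy g.r s) → (∀ s ∈ Ω', γ s - P θ (γ s) = p θ) →
        WD Ω' (fun s => Φ i θ (s, γ s))
          (fun s => mu1 (fun i w => f k i (cy g.r w)) S R χ i s * v θ (γ s))) ∧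
      (∀ i θ w, 0 < w.im → DifferentiableOn ℂ (fun z => Φ i θ (w, z)) (Dom g f J ε₁)) ∧
      (∀ i θ, ∀ O : Set ℂ, IsOpen O →
        (∀ w ∈ O, 0 < w.im → mu1 (fun i w => f k i (cy g.r w)) S R χ i w = 0) →
        DifferentiableOn ℂ (Φ i θ) {q | q ∈ DU (Dom g f J ε₁) ∧ q.1 ∈ O}) := by
  classical
  -- the good parameters
  set Gd : Set (Θ × ℂ) := {q | ¬ g.cs k (P q.1) (p q.1) ∧ P q.1 (g.A k q.2) ≠ 0} with hGd
  have hPA : Measurable (fun q : Θ × ℂ => P q.1 (g.A k q.2)) := by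
    have h1 : Measurable (fun q : Θ × ℂ => (q.1, g.A k q.2)) :=
      measurable_fst.prodMk ((g.Am k).comp measurable_snd)
    exact hS.Pm.comp h1
  have hGdm : MeasurableSet Gd := by
    refine MeasurableSet.inter ?_ ?_
    · have h1 : MeasurableSet {θ | g.cs k (P θ) (p θ)} := g.csm k Θ P p hS.Pm hS.pm
      exact measurable_fst h1.compl
    · exact hPA (measurableSet_singleton (0 : X)).compl
  set P' : Θ × ℂ → X →L[ℂ] X := fun q => if q ∈ Gd then PQ (P q.1) (P q.1 (g.A k q.2)) else P q.1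
    with hP'
  set p' : Θ × ℂ → X := fun q => if q ∈ Gd then
    p q.1 + (g.b k q.2 - inner ℂ (g.A k q.2) (p q.1)) • eV (P q.1 (g.A k q.2)) else p q.1 with hp'
  set v' : Θ × ℂ → X → ℂ := fun q z => if q ∈ Gd ∧ ∀ i, ‖f k i q.2‖ < ε then v q.1 z else 0
    with hv'
  have heVm : Measurable (fun q : Θ × ℂ => eV (P q.1 (g.A k q.2))) := by
    unfold eV
    have h1 : Measurable (fun q : Θ × ℂ => ((‖P q.1 (g.A k q.2)‖ : ℝ) : ℂ)) :=
      Complex.measurable_ofReal.comp hPA.norm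
    exact (h1.pow_const 2).inv.smul hPA
  have hS' : Sli g P' p' := by
    refine ⟨?_, ?_, ?_, ?_, ?_⟩
    · have h0 : (fun q : (Θ × ℂ) × X => P' q.1 q.2) = fun q : (Θ × ℂ) × X =>
          if q ∈ {q : (Θ × ℂ) × X | q.1 ∈ Gd} then
            P q.1.1 q.2 - (inner ℂ (P q.1.1 (g.A k q.1.2)) q.2 : ℂ) •
              eV (P q.1.1 (g.A k q.1.2)) else P q.1.1 q.2 := by
        funext q
        by_cases hq : q.1 ∈ Gd
        · simp only [hP', hq, if_true, mem_ofPred_eq, PQ_apply]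
        · simp only [hP', hq, if_false, mem_ofPred_eq]
      rw [h0]
      have h1 : Measurable (fun q : (Θ × ℂ) × X => P q.1.1 q.2) :=
        hS.Pm.comp ((measurable_fst.comp measurable_fst).prodMk measurable_snd)
      have h2 : Measurable (fun q : (Θ × ℂ) × X => P q.1.1 (g.A k q.1.2)) :=
        hPA.comp measurable_fst
      have h3 : Measurable (fun q : (Θ × ℂ) × X => (inner ℂ (P q.1.1 (g.A k q.1.2)) q.2 : ℂ)) :=
        h2.inner measurable_snd
      exact Measurable.ite (measurable_fst hGdm) (h1.sub (h3.smul (heVm.comp measurable_fst))) h1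
    · have h1 : Measurable (fun q : Θ × ℂ => p q.1) := hS.pm.comp measurable_fst
      have h2 : Measurable (fun q : Θ × ℂ => (inner ℂ (g.A k q.2) (p q.1) : ℂ)) :=
        ((g.Am k).comp measurable_snd).inner h1
      exact Measurable.ite hGdm
        (h1.add ((((g.bm k).comp measurable_snd).sub h2).smul heVm)) h1
    · intro q
      by_cases hq : q ∈ Gd
      · simp only [hP', hq, if_true]
        exact (hS.op q.1).PQ hq.2
      · simp only [hP', hq, if_false]
        exact hS.op q.1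
    · intro q
      by_cases hq : q ∈ Gd
      · simp only [hP', hq, if_true]
        exact g.admP _ (hS.adm q.1) k q.2 hq.2
      · simp only [hP', hq, if_false]
        exact hS.adm q.1
    · intro q
      by_cases hq : q ∈ Gd
      · simp only [hP', hp', hq, if_true]
        rw [map_add, map_smul, PQ_eV (hS.op q.1) hq.2, PQ_zero (hS.op q.1) (hS.p0 q.1), smul_zero,
          add_zero]
      · simp only [hP', hp', hq, if_false]
        exact hS.p0 q.1
  have hv'm : Measurable (fun q : (Θ × ℂ) × X => v' q.1 q.2) := by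
    have h1 : MeasurableSet {q : (Θ × ℂ) × X | q.1 ∈ Gd ∧ ∀ i, ‖f k i q.1.2‖ < ε} := by
      refine (measurable_fst hGdm).inter ?_
      have h2 : {q : (Θ × ℂ) × X | ∀ i, ‖f k i q.1.2‖ < ε} =
          ⋂ i, {q : (Θ × ℂ) × X | ‖f k i q.1.2‖ < ε} := by
        ext q
        simp
      have h4 : MeasurableSet {q : (Θ × ℂ) × X | ∀ i, ‖f k i q.1.2‖ < ε} := by
        rw [h2]
        refine MeasurableSet.iInter (fun i => ?_)
        have h3 : Measurable (fun q : (Θ × ℂ) × X => f k i q.1.2) :=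
          (hf.fm k i).comp (measurable_snd.comp measurable_fst)
        exact measurableSet_lt h3.norm measurable_const
      exact h4
    refine Measurable.ite h1 ?_ measurable_const
    have h4 : Measurable (fun q : (Θ × ℂ) × X => (q.1.1, q.2)) := by fun_prop
    exact hv.comp h4
  -- the points of the new slices
  have hsl1 : ∀ q ∈ Gd, ∀ x, p' q + P' q x = p q.1 + P q.1
      ((g.b k q.2 - inner ℂ (g.A k q.2) (p q.1)) • eV (P q.1 (g.A k q.2)) + P' q x) := by
    intro q hq x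
    simp only [hP', hp', hq, if_true]
    rw [map_add, map_smul, P_eV (hS.op q.1), P_PQ (hS.op q.1)]
    abel
  have hsl2 : ∀ q ∈ Gd, ∀ x, (inner ℂ (g.A k q.2) (p' q + P' q x) : ℂ) = g.b k q.2 := by
    intro q hq x
    simp only [hP', hp', hq, if_true]
    rw [inner_add_right, inner_add_right, inner_smul_right, u_eV (hS.op q.1) hq.2,
      u_PQ (hS.op q.1) hq.2]
    ring
  have hsl3 : ∀ q ∈ Gd, ∀ z, z - P' q z = p' q → z - P q.1 z = p q.1 ∧
      (inner ℂ (g.A k q.2) z : ℂ) = g.b k q.2 := by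
    intro q hq z hz
    have h1 : z = p' q + P' q z := by rw [← hz, sub_add_cancel]
    constructor
    · have h2 := hsl1 q hq z
      rw [← h1] at h2
      rw [h2]
      exact sl_id (hS.op q.1) (hS.p0 q.1) _
    · have h2 := hsl2 q hq z
      rwa [← h1] at h2
  have hsl4 : ∀ q ∈ Gd, ∀ z, z - P q.1 z = p q.1 → (inner ℂ (g.A k q.2) z : ℂ) = g.b k q.2 →
      z - P' q z = p' q := by
    intro q hq z hz hz2
    have h1 : z = p q.1 + P q.1 z := by rw [← hz, sub_add_cancel]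
    have h2 : (inner ℂ (P q.1 (g.A k q.2)) z : ℂ) = g.b k q.2 - inner ℂ (g.A k q.2) (p q.1) := by
      rw [(hS.op q.1).symm, eq_sub_iff_add_eq, ← hz2]
      conv_rhs => rw [h1, inner_add_right]
      rw [add_comm]
    simp only [hP', hp', hq, if_true]
    rw [PQ_apply, h2]
    rw [← hz]
    abel
  obtain ⟨F, hFm, hFd, hFb, hFe⟩ := H (Θ × ℂ) P' p' hS' v' M hM hv'm
    (by
      intro q
      by_cases hq : q ∈ Gd ∧ ∀ i, ‖f k i q.2‖ < ε
      · obtain ⟨hqG, hq2⟩ := hq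
        have h1 : ∀ x, v' q (p' q + P' q x) = v q.1 (p q.1 + P q.1
            ((g.b k q.2 - inner ℂ (g.A k q.2) (p q.1)) • eV (P q.1 (g.A k q.2)) + P' q x)) := by
          intro x
          rw [← hsl1 q hqG]
          simp only [hv']
          rw [if_pos ⟨hqG, hq2⟩]
        have h2 : Differentiable ℂ (fun x =>
            (g.b k q.2 - inner ℂ (g.A k q.2) (p q.1)) • eV (P q.1 (g.A k q.2)) + P' q x) :=
          (P' q).differentiable.const_add _
        have h3 : MapsTo (fun x =>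
            (g.b k q.2 - inner ℂ (g.A k q.2) (p q.1)) • eV (P q.1 (g.A k q.2)) + P' q x)
            {x | p' q + P' q x ∈ Dom g f J ε}
            {x | p q.1 + P q.1 x ∈ Dom g f (insert k J) ε} := by
          intro x hx
          change p q.1 + P q.1
            ((g.b k q.2 - inner ℂ (g.A k q.2) (p q.1)) • eV (P q.1 (g.A k q.2)) + P' q x) ∈
              Dom g f (insert k J) ε
          rw [← hsl1 q hqG, mem_insert_iff]
          refine ⟨hx, ?_⟩
          rw [(g.fib k _ hx.1 q.2).2 (hsl2 q hqG x)]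
          exact hq2
        have h5 := (hvd q.1).comp h2.differentiableOn h3
        exact h5.congr (fun x _ => h1 x)
      · have h1 : ∀ x, v' q (p' q + P' q x) = 0 := by
          intro x
          simp only [hv']
          rw [if_neg hq]
        simp only [h1]
        exact differentiableOn_const _)
    (by
      intro q z hz hzD
      by_cases hq : q ∈ Gd ∧ ∀ i, ‖f k i q.2‖ < ε
      · obtain ⟨hqG, hq2⟩ := hq
        obtain ⟨h1, h2⟩ := hsl3 q hqG z hz
        simp only [hv']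
        rw [if_pos ⟨hqG, hq2⟩]
        refine hvb q.1 z h1 (mem_insert_iff.2 ⟨hzD, ?_⟩)
        rw [(g.fib k z hzD.1 q.2).2 h2]
        exact hq2
      · simp only [hv']
        rw [if_neg hq, norm_zero]
        exact hM)
  have hUo : IsOpen (Dom g f J ε₁) := hf.open g J ε₁
  set D : Set (ℂ × X) := DU (Dom g f J ε₁) with hD
  have hOv : Ov D := DU_ov hUo
  set fh : Fin N → ℂ → ℂ := fun i w => f k i (cy g.r w) with hfh
  have hfhd : ∀ i, DifferentiableOn ℂ (fh i) UH := fun i => g.cyd' hf k i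
  set ef : Θ → ℂ → ℂ × X → ℂ := fun θ ζ q => F (θ, cy g.r ζ) q.2 with hef
  have hefm : Measurable (fun q : Θ × ℂ × (ℂ × X) => ef q.1 q.2.1 q.2.2) := by
    have h1 : Measurable (fun q : Θ × ℂ × (ℂ × X) => cy g.r q.2.1) :=
      (cy_meas g.r).comp (measurable_fst.comp measurable_snd)
    have h3 : Measurable (fun q : Θ × ℂ × (ℂ × X) => q.2.2.2) :=
      measurable_snd.comp (measurable_snd.comp measurable_snd)
    exact hFm.comp ((measurable_fst.prodMk h1).prodMk h3)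
  have hB : ∀ θ, Bdd D (AA fh δ) (C₁ * M) (ef θ) := by
    intro θ
    refine ⟨fun y => ?_, fun ζ _ => ?_, fun ζ _ q hq => ?_⟩
    · have h1 : Measurable (fun q : ℂ × ℂ => (θ, q.1, (q.2, y))) := by fun_prop
      exact hefm.comp h1
    · intro q hq
      have h1 : DifferentiableAt ℂ (F (θ, cy g.r ζ)) q.2 :=
        (hFd _).differentiableAt (hUo.mem_nhds hq.2)
      exact (DifferentiableAt.comp (g := F (θ, cy g.r ζ)) (f := fun q : ℂ × X => q.2) q h1
        differentiableAt_snd).differentiableWithinAt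
    · exact hFb _ _ hq.2
  have hden := fun i => den1' hcut hε' hC hfhd i
  have hCM : 0 ≤ C₁ * M := mul_nonneg hC₁ hM
  refine ⟨fun i θ q => VJ D (ef θ) S a R (mu1 fh S R χ i) q, ?_, ?_, ?_, ?_, ?_⟩
  · intro i
    exact VJ_meas hOv hcut.fam (hden i).hμ hefm
  · intro i θ q hq
    exact VJ_bound hOv hcut.fam (hB θ) hCM (hden i) hq
  · intro i θ hcs Ω' γ hΩo hγd hγm hΩi hγψ hγs
    have hem : Measurable (fun q : ℂ × (ℂ × X) => ef θ q.1 q.2) := by
      have h1 : Measurable (fun q : ℂ × (ℂ × X) => (θ, q.1, q.2)) := by fun_prop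
      exact hefm.comp h1
    refine (VJ_curve hOv hcut.fam (hB θ) hem hCM (hden i) hΩo hγd
      (fun s hs => ⟨hΩi s hs, hγm hs⟩)).congr hΩo (fun _ _ => rfl) ?_
    intro s hs
    by_cases hmu : mu1 fh S R χ i s = 0
    · rw [hmu, zero_mul, zero_mul]
    · congr 1
      have hs0 : s ∈ UH := hΩi s hs
      have h1 : db (χ none) s ≠ 0 := by
        intro h0
        apply hmu
        rw [mu1_eq hcut hs0, h0, mul_zero]
      have h2 : ∀ i, ‖f k i (cy g.r s)‖ < ε := fun i =>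
        lt_of_le_of_lt (hcut.d_none hfhd hs0 (db_ne h1) i) hδ
      have hzΩ : γ s ∈ g.Ω := (hγm hs).1
      have h3 : P θ (g.A k (cy g.r s)) ≠ 0 := by
        have h4 := g.cs2 k (P θ) (p θ) (hS.op θ) (hS.adm θ) (hS.p0 θ) hcs (γ s) hzΩ (hγs s hs)
        rwa [hγψ s hs] at h4
      have hG : ((θ, cy g.r s) : Θ × ℂ) ∈ Gd := ⟨hcs, h3⟩
      have h5 := hFe (θ, cy g.r s) (γ s)
        (hsl4 _ hG (γ s) (hγs s hs) ((g.fib k _ hzΩ _).1 (hγψ s hs))) (hγm hs)
      change v θ (γ s) = F (θ, cy g.r s) (γ s)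
      rw [h5]
      simp only [hv']
      rw [if_pos ⟨hG, h2⟩]
  · intro i θ w hw
    refine (VJ_diff2 hOv hcut.fam (hB θ) hCM (hden i) w).mono (fun z hz => ⟨hw, hz⟩)
  · intro i θ O hO h0
    exact VJ_holo hOv hcut.fam (hB θ) hCM (hden i) hO h0

end Pool.Agent.Y263.GF
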