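import Mathlib
import Pool.Agent.Y263.GF.Op
import Pool.Agent.Y263.LF.Ext

/-!
The extension lemma for functions with affine fibres: bounded holomorphic functions on the part of
a slice where finitely many functions are small extend, with a loss of the level, with bounds.
-/

set_option autoImplicit false
set_option linter.unusedSectionVars false

open MeasureTheory Metric Set Filter Topology Complex
open scoped ContDiff

namespace Pool.Agent.Y263.GF

open Pool.Agent.H720R2 Pool.Agent.H720R2.HP
open Pool.Agent.H788R3.Cor2 (cy yc cy_mem cy_mem' cy_diff cy_diffAt cy_yc yc_im yc_diff osgood2)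
open Pool.Agent.H788R3.Cor3 (mul_C1)
open Pool.Agent.Y263.SC (Ov slice_open Den AA den1' Ov.UH)
open Pool.Agent.Y263.LF (OP cut_one cut_open cut_mu1 cut_meas cut_zero cy_meas yc_meas cy_lt)

section

variable {X : Type} [NormedAddCommGroup X] [InnerProductSpace ℂ X] [FiniteDimensional ℂ X]
  [MeasurableSpace X] [BorelSpace X] {κ : Type} [DecidableEq κ] {N : ℕ}

/-- lines on which the coordinate in the half plane is constant -/
theorem Geo.W_lp (g : Geo X κ) (k : κ) {z : X} (hz : z ∈ g.Ω) {c : X}
    (h : fderiv ℂ (g.W k) z c = 0) : ∀ᶠ t in 𝓝 (0 : ℂ), g.W k (z + t • c) = g.W k z := by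
  have hfd : HasFDerivAt (g.ψ k) (fderiv ℂ (g.ψ k) z) z := (g.ψdAt k hz).hasFDerivAt
  have hWd : HasFDerivAt (g.W k) (fderiv ℂ (g.W k) z) z := (g.W_diff k hz).hasFDerivAt
  -- `ψ = cy ∘ W`
  have h1 : (fun z => cy g.r (g.W k z)) =ᶠ[𝓝 z] g.ψ k := by
    filter_upwards [g.op.mem_nhds hz] with y hy
    exact g.cy_W k hy
  have hcyd : DifferentiableAt ℂ (cy g.r) (g.W k z) := cy_diffAt g.r0 g.r1 (g.W_im k hz)
  have h2 : HasFDerivAt (fun z => cy g.r (g.W k z))
      ((fderiv ℂ (cy g.r) (g.W k z)).comp (fderiv ℂ (g.W k) z)) z :=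
    hcyd.hasFDerivAt.comp z hWd
  have h3 : fderiv ℂ (g.ψ k) z c = 0 := by
    rw [← h1.fderiv_eq, h2.fderiv]
    simp [h]
  filter_upwards [g.lp k z hz c h3] with t ht
  unfold Geo.W
  rw [ht]

/-- **One step of the extension lemma.** -/
theorem ext_step {g : Geo X κ} {f : κ → Fin N → ℂ → ℂ} (hf : FD f) {J : Finset κ} {k : κ}
    {ε ε₁ ε₂ C₁ C₂ : ℝ} (H1 : Ext0 g (Dom g f J ε) (Dom g f J ε₁) C₁)
    (H2 : Ext0 g (Dom g f J ε₁) (Dom g f J ε₂) C₂) (hε : 0 < ε) (hε₁ε : ε₁ ≤ ε) (hε₂ε : ε₂ ≤ ε₁)
    (hC₁ : 0 ≤ C₁) (hC₂ : 0 ≤ C₂) {ε' C : ℝ} (hε' : 0 < ε') (hC : 0 ≤ C)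
    {ι : Type} {S : Finset ι} {a : ι → ℂ} {R : ι → Set ℂ} {χ : Option (Fin N) → ℂ → ℂ}
    (hcut : CutP (fun i w => f k i (cy g.r w)) (ε / 2) ε' C S a R χ) :
    Ext0 g (Dom g f (insert k J) ε) (Dom g f (insert k J) (min ε₂ ε'))
      (max C₁ (C₂ * (1 + N * (2160 * Real.exp C * (C / ε') * C₁)) +
        N * (2160 * Real.exp C * (C / ε') * C₁))) := by
  set CV : ℝ := 2160 * Real.exp C * (C / ε') * C₁ with hCV
  have hCV0 : 0 ≤ CV := by positivity
  intro Θ _ P p hS v M hM hv hvd hvb
  classical
  have hr0 := g.r0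
  have hr1 := g.r1
  -- the parameters for which the function is constant on the slice
  set Θc : Set Θ := {θ | g.cs k (P θ) (p θ)} with hΘc
  have hΘcm : MeasurableSet Θc := g.csm k Θ P p hS.Pm hS.pm
  have hcvm : Measurable (fun θ => g.cv k (P θ) (p θ)) := g.cvm k Θ P p hS.Pm hS.pm
  have hsub2 : Dom g f (insert k J) (min ε₂ ε') ⊆ Dom g f J ε₂ :=
    (Dom_sub (Finset.subset_insert k J)).trans (Dom_mono (min_le_left _ _))
  have hsub1 : Dom g f (insert k J) (min ε₂ ε') ⊆ Dom g f J ε₁ := hsub2.trans (Dom_mono hε₂ε)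
  -- the first case
  obtain ⟨Fc, hFc1, hFc2, hFc3, hFc4⟩ : ∃ F : Θ → X → ℂ,
      Measurable (fun q : Θ × X => F q.1 q.2) ∧
      (∀ θ, DifferentiableOn ℂ (F θ) (Dom g f (insert k J) (min ε₂ ε'))) ∧
      (∀ θ, ∀ z ∈ Dom g f (insert k J) (min ε₂ ε'), ‖F θ z‖ ≤ C₁ * M) ∧
      (∀ θ ∈ Θc, ∀ z, z - P θ z = p θ → z ∈ Dom g f (insert k J) (min ε₂ ε') →
        F θ z = v θ z) := by
    set v' : Θ → X → ℂ := fun θ z =>
      if θ ∈ Θc ∧ ∀ i, ‖f k i (g.cv k (P θ) (p θ))‖ < ε then v θ z else 0 with hv'
    have hv'm : Measurable (fun q : Θ × X => v' q.1 q.2) := by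
      have h1 : MeasurableSet {q : Θ × X | q.1 ∈ Θc ∧
          ∀ i, ‖f k i (g.cv k (P q.1) (p q.1))‖ < ε} := by
        refine (measurable_fst hΘcm).inter ?_
        have h2 : {q : Θ × X | ∀ i, ‖f k i (g.cv k (P q.1) (p q.1))‖ < ε} =
            ⋂ i, {q : Θ × X | ‖f k i (g.cv k (P q.1) (p q.1))‖ < ε} := by
          ext q
          simp
        have h3 : MeasurableSet {q : Θ × X | ∀ i, ‖f k i (g.cv k (P q.1) (p q.1))‖ < ε} := by
          rw [h2]
          refine MeasurableSet.iInter (fun i => ?_)
          exact measurableSet_lt ((hf.fm k i).comp (hcvm.comp measurable_fst)).norm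
            measurable_const
        exact h3
      exact Measurable.ite h1 hv measurable_const
    obtain ⟨F, hF1, hF2, hF3, hF4⟩ := H1 Θ P p hS v' M hM hv'm
      (by
        intro θ
        by_cases hθ : θ ∈ Θc ∧ ∀ i, ‖f k i (g.cv k (P θ) (p θ))‖ < ε
        · have h1 : ∀ z, v' θ z = v θ z := by
            intro z
            simp only [hv']
            rw [if_pos hθ]
          simp only [h1]
          refine (hvd θ).mono (fun x hx => ?_)
          refine mem_insert_iff.2 ⟨hx, ?_⟩
          have h2 : p θ + P θ x ∈ Dom g f J ε := hx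
          rw [g.cs1 k (P θ) (p θ) (hS.op θ) (hS.adm θ) (hS.p0 θ) hθ.1 _ h2.1
            (sl_id (hS.op θ) (hS.p0 θ) x)]
          exact hθ.2
        · have h1 : ∀ z, v' θ z = 0 := by
            intro z
            simp only [hv']
            rw [if_neg hθ]
          simp only [h1]
          exact differentiableOn_const _)
      (by
        intro θ z hz hzD
        by_cases hθ : θ ∈ Θc ∧ ∀ i, ‖f k i (g.cv k (P θ) (p θ))‖ < ε
        · simp only [hv']
          rw [if_pos hθ]
          refine hvb θ z hz (mem_insert_iff.2 ⟨hzD, ?_⟩)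
          rw [g.cs1 k (P θ) (p θ) (hS.op θ) (hS.adm θ) (hS.p0 θ) hθ.1 z hzD.1 hz]
          exact hθ.2
        · simp only [hv']
          rw [if_neg hθ, norm_zero]
          exact hM)
    refine ⟨F, hF1, fun θ => (hF2 θ).mono hsub1, fun θ z hz => hF3 θ z (hsub1 hz),
      fun θ hθ z hs hz => ?_⟩
    rw [hF4 θ z hs (hsub1 hz)]
    simp only [hv']
    rw [if_pos]
    refine ⟨hθ, fun i => ?_⟩
    rw [← g.cs1 k (P θ) (p θ) (hS.op θ) (hS.adm θ) (hS.p0 θ) hθ z hz.1 hs]
    exact lt_of_lt_of_le ((mem_insert_iff.1 hz).2 i) ((min_le_left _ _).trans (hε₂ε.trans hε₁ε))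
  -- the main case
  obtain ⟨Fn, hFn1, hFn2, hFn3, hFn4⟩ : ∃ F : Θ → X → ℂ,
      Measurable (fun q : Θ × X => F q.1 q.2) ∧
      (∀ θ, DifferentiableOn ℂ (F θ) (Dom g f (insert k J) (min ε₂ ε'))) ∧
      (∀ θ, ∀ z ∈ Dom g f (insert k J) (min ε₂ ε'),
        ‖F θ z‖ ≤ (C₂ * (1 + N * CV) + N * CV) * M) ∧
      (∀ θ, θ ∉ Θc → ∀ z, z - P θ z = p θ → z ∈ Dom g f (insert k J) (min ε₂ ε') →
        F θ z = v θ z) := by
    set fh : Fin N → ℂ → ℂ := fun i w => f k i (cy g.r w) with hfh
    have hfhd : ∀ i, DifferentiableOn ℂ (fh i) UH := fun i => g.cyd' hf k i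
    obtain ⟨V, hV1, hV2, hV3, hV4, hV5⟩ := opG hf H1 hC₁ (by linarith : ε / 2 < ε) hε' hC hS
      hM hv hvd hvb hcut
    have hUo : IsOpen (Dom g f J ε₁) := hf.open g J ε₁
    set D : Set (ℂ × X) := DU (Dom g f J ε₁) with hD
    have hOv : Ov D := DU_ov hUo
    set O : Set ℂ := {w | w ∈ UH ∧ ∀ i, ‖fh i w‖ < ε} with hO
    have hOo : IsOpen O := cut_open hfhd ε
    have hCVM : 2160 * Real.exp C * (C / ε') * (C₁ * M) = CV * M := by rw [hCV]; ring
    have hfb : ∀ i, ∀ w : ℂ, 0 < w.im → ‖fh i w‖ ≤ 1 := fun i w hw =>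
      hf.fb k i _ (cy_mem' hr0 hr1 hw)
    have hWU : ∀ z ∈ Dom g f J ε₁, g.W k z ∈ UH := fun z hz => g.W_im k hz.1
    have hWD : ∀ z ∈ Dom g f J ε₁, (g.W k z, z) ∈ D := fun z hz => ⟨g.W_im k hz.1, hz⟩
    have hfW : ∀ i, ∀ z ∈ g.Ω, fh i (g.W k z) = f k i (g.ψ k z) := by
      intro i z hz
      simp only [hfh]
      rw [g.cy_W k hz]
    have hdomO : ∀ z ∈ Dom g f J ε₁, g.W k z ∈ O → z ∈ Dom g f (insert k J) ε := by
      intro z hz hzO
      refine mem_insert_iff.2 ⟨Dom_mono hε₁ε hz, fun i => ?_⟩
      rw [← hfW i z hz.1]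
      exact hzO.2 i
    have hχO : ∀ w ∈ UH, χ none w ≠ 0 → w ∈ O := fun w hw hχ =>
      ⟨hw, fun i => lt_of_le_of_lt (hcut.small w hw hχ i) (by linarith)⟩
    -- the function on the slices
    set G : Θ → X → ℂ := fun θ z => UH.indicator (χ none) (g.W k z) * v θ z +
      ∑ i, -f k i (g.ψ k z) * V i θ (g.W k z, z) with hG
    set G' : Θ → X → ℂ := fun θ z => if θ ∈ Θc then 0 else G θ z with hG'
    have hGb : ∀ θ z, z - P θ z = p θ → z ∈ Dom g f J ε₁ → ‖G θ z‖ ≤ (1 + N * CV) * M := by
      intro θ z hs hz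
      have hw := hWU z hz
      have h1 : ‖UH.indicator (χ none) (g.W k z) * v θ z‖ ≤ M := by
        rw [indicator_of_mem hw]
        by_cases hχ : χ none (g.W k z) = 0
        · rw [hχ, zero_mul, norm_zero]
          exact hM
        · rw [norm_mul]
          have h2 := hcut.bd none _ hw
          have h3 := hvb θ z hs (hdomO z hz (hχO _ hw hχ))
          calc ‖χ none (g.W k z)‖ * _ ≤ 1 * M := by gcongr
            _ = M := one_mul M
      have h2 : ‖∑ i, -f k i (g.ψ k z) * V i θ (g.W k z, z)‖ ≤ N * CV * M := by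
        refine (norm_sum_le _ _).trans ?_
        have h3 : ∀ i ∈ Finset.univ, ‖-f k i (g.ψ k z) * V i θ (g.W k z, z)‖ ≤ CV * M := by
          intro i _
          rw [norm_mul, norm_neg]
          have h4 := hf.fb k i _ (g.mem k hz.1)
          have h5 := hV2 i θ _ (hWD z hz)
          rw [hCVM] at h5
          calc _ ≤ 1 * (CV * M) := by gcongr
            _ = CV * M := one_mul _
        refine (Finset.sum_le_sum h3).trans (le_of_eq ?_)
        rw [Finset.sum_const, Finset.card_univ, Fintype.card_fin, nsmul_eq_mul]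
        ring
      refine (norm_add_le _ _).trans ?_
      linarith
    have hGd : ∀ θ, θ ∉ Θc → DifferentiableOn ℂ (fun x => G θ (p θ + P θ x))
        {x | p θ + P θ x ∈ Dom g f J ε₁} := by
      intro θ hθ
      have haff : Differentiable ℂ (fun x => p θ + P θ x) := (P θ).differentiable.const_add _
      have hUx : IsOpen {x | p θ + P θ x ∈ Dom g f J ε₁} := hUo.preimage haff.continuous
      have hWx : DifferentiableOn ℂ (fun x => g.W k (p θ + P θ x))
          {x | p θ + P θ x ∈ Dom g f J ε₁} := by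
        intro x hx
        have hx' : p θ + P θ x ∈ Dom g f J ε₁ := hx
        exact (DifferentiableAt.comp (g := g.W k) x (g.W_diff k hx'.1)
          (haff x)).differentiableWithinAt
      refine line_holo (W := fun x => g.W k (p θ + P θ x)) hUx hWx ?_
        (fun x hx => hGb θ _ (sl_id (hS.op θ) (hS.p0 θ) x) hx) ?_ ?_
      · -- lines on which `W` is constant
        intro x hx h h0
        have hx' : p θ + P θ x ∈ Dom g f J ε₁ := hx
        have h1 : fderiv ℂ (fun x => g.W k (p θ + P θ x)) x =
            (fderiv ℂ (g.W k) (p θ + P θ x)).comp (P θ) := by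
          have h2 : HasFDerivAt (fun x => p θ + P θ x) (P θ) x := (P θ).hasFDerivAt.const_add _
          exact ((g.W_diff k hx'.1).hasFDerivAt.comp x h2).fderiv
        rw [h1] at h0
        have h2 := g.W_lp k hx'.1 (c := P θ h) h0
        filter_upwards [h2] with t ht
        rw [map_add, map_smul, ← add_assoc]
        exact ht
      · intro x hx h hconst
        have hx' : p θ + P θ x ∈ Dom g f J ε₁ := hx
        set w0 := g.W k (p θ + P θ x) with hw0
        have hw0U : w0 ∈ UH := hWU _ hx'
        have hline : Differentiable ℂ (fun t : ℂ => x + t • h) := by fun_prop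
        have hev : ∀ᶠ t in 𝓝 (0 : ℂ), p θ + P θ (x + t • h) ∈ Dom g f J ε₁ := by
          have h1 : ContinuousAt (fun t : ℂ => p θ + P θ (x + t • h)) 0 :=
            (haff.continuous.comp hline.continuous).continuousAt
          refine h1.eventually (hUo.mem_nhds ?_)
          simpa using hx'
        have hVd : ∀ i, DifferentiableAt ℂ (fun t : ℂ => V i θ (w0, p θ + P θ (x + t • h))) 0 := by
          intro i
          have h1 : DifferentiableAt ℂ (fun z => V i θ (w0, z)) (p θ + P θ (x + (0 : ℂ) • h)) := by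
            rw [zero_smul, add_zero]
            exact (hV4 i θ w0 hw0U).differentiableAt (hUo.mem_nhds hx')
          exact DifferentiableAt.comp (g := fun z => V i θ (w0, z))
            (f := fun t : ℂ => p θ + P θ (x + t • h)) 0 h1 ((haff.comp hline) 0)
        have hvdt : DifferentiableAt ℂ
            (fun t : ℂ => UH.indicator (χ none) w0 * v θ (p θ + P θ (x + t • h))) 0 := by
          by_cases hχ : UH.indicator (χ none) w0 = 0
          · simp only [hχ, zero_mul]
            exact differentiableAt_const _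
          · have hwO : w0 ∈ O := hχO w0 hw0U (by rwa [indicator_of_mem hw0U] at hχ)
            have h1 : DifferentiableAt ℂ (fun x => v θ (p θ + P θ x)) (x + (0 : ℂ) • h) := by
              rw [zero_smul, add_zero]
              refine (hvd θ).differentiableAt ?_
              exact ((hf.open g (insert k J) ε).preimage haff.continuous).mem_nhds
                (hdomO _ hx' hwO)
            exact (DifferentiableAt.comp (g := fun x => v θ (p θ + P θ x))
              (f := fun t : ℂ => x + t • h) 0 h1 (hline 0)).const_mul _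
        have hsum : DifferentiableAt ℂ (fun t : ℂ =>
            UH.indicator (χ none) w0 * v θ (p θ + P θ (x + t • h)) +
            ∑ i, -fh i w0 * V i θ (w0, p θ + P θ (x + t • h))) 0 :=
          hvdt.fun_add (DifferentiableAt.fun_sum (fun i _ => (hVd i).const_mul _))
        refine hsum.congr_of_eventuallyEq ?_
        filter_upwards [hconst, hev] with t ht1 ht2
        simp only [hG]
        rw [ht1]
        congr 1
        refine Finset.sum_congr rfl (fun i _ => ?_)
        rw [← hfW i _ ht2.1, ht1]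
      · -- curves on which `W` is the coordinate
        intro Ω' γ hΩo hγd hγm hγW
        set γ' : ℂ → X := fun s => p θ + P θ (γ s) with hγ'
        have hγ'd : DifferentiableOn ℂ γ' Ω' := haff.comp_differentiableOn hγd
        have hγ'm : MapsTo γ' Ω' (Dom g f J ε₁) := fun s hs => hγm hs
        have hγ'W : ∀ s ∈ Ω', g.W k (γ' s) = s := hγW
        have hΩU : Ω' ⊆ UH := by
          intro s hs
          rw [← hγ'W s hs]
          exact hWU _ (hγ'm hs)
        have hγψ : ∀ s ∈ Ω', g.ψ k (γ' s) = cy g.r s := by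
          intro s hs
          rw [← g.cy_W k (hγ'm hs).1, hγ'W s hs]
        have hγsl : ∀ s ∈ Ω', γ' s - P θ (γ' s) = p θ := fun s _ =>
          sl_id (hS.op θ) (hS.p0 θ) (γ s)
        have hwV := fun i => hV3 i θ hθ Ω' γ' hΩo hγ'd hγ'm (fun s hs => hΩU hs) hγψ hγsl
        obtain ⟨hc1, hc2⟩ := mul_C1 hΩo hOo hΩU (g := fun s => v θ (γ' s))
          (by
            rintro s ⟨hs, hsO⟩
            have h1 : DifferentiableAt ℂ (fun x => v θ (p θ + P θ x)) (γ s) := by
              refine (hvd θ).differentiableAt ?_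
              refine ((hf.open g (insert k J) ε).preimage haff.continuous).mem_nhds ?_
              refine hdomO _ (hγ'm hs) ?_
              rw [hγ'W s hs]
              exact hsO
            exact (DifferentiableAt.comp (g := fun x => v θ (p θ + P θ x)) s h1
              (hγd.differentiableAt (hΩo.mem_nhds hs))).differentiableWithinAt)
          (hcut.smooth none) (fun w hw hwO => cut_zero hcut hfhd (by linarith) (hΩU hw) hwO)
        have hw1 : WD Ω' (fun s => UH.indicator (χ none) s * v θ (γ' s))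
            (fun s => db (χ none) s * v θ (γ' s)) :=
          (WD.of_C1 hΩo hc1).congr hΩo
            (fun w hw => by rw [indicator_of_mem (hΩU hw)]) (fun w hw => (hc2 w hw).symm)
        have hw3 := WD.sum hΩo (Finset.univ : Finset (Fin N))
          (V := fun i s => -fh i s * V i θ (s, γ' s))
          (ν := fun i s => -fh i s * (mu1 fh S R χ i s * v θ (γ' s)))
          (fun i _ => (hwV i).mul_holo hΩo ((hfhd i).mono hΩU).neg)
        have hholo : DifferentiableOn ℂ (fun s => UH.indicator (χ none) s * v θ (γ' s) +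
            ∑ i, -fh i s * V i θ (s, γ' s)) Ω' := by
          refine (hw1.add hΩo hw3).holo hΩo ?_
          intro s hs
          have hwU := hΩU hs
          simp only [mu1_eq hcut hwU]
          have h1 : ∀ i, -fh i s * (starRingEnd ℂ (fh i s) / (DD fh s : ℂ) * db (χ none) s *
              v θ (γ' s)) =
              (fh i s * (starRingEnd ℂ (fh i s) / (DD fh s : ℂ) * db (χ none) s)) *
                (-v θ (γ' s)) := fun i => by ring
          simp only [h1]
          rw [← Finset.sum_mul, sum_mu1 hcut hε' hfhd hwU]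
          ring
        refine hholo.congr (fun s hs => ?_)
        change G θ (γ' s) = _
        simp only [hG]
        rw [hγ'W s hs]
        congr 1
        refine Finset.sum_congr rfl (fun i _ => ?_)
        rw [← hfW i _ (hγ'm hs).1, hγ'W s hs]
    have hGm : Measurable (fun q : Θ × X => G q.1 q.2) := by
      have hy : Measurable (fun q : Θ × X => g.W k q.2) := (g.W_meas k).comp measurable_snd
      have h1 : Measurable (fun q : Θ × X => UH.indicator (χ none) (g.W k q.2) * v q.1 q.2) :=
        ((cut_meas hcut).comp hy).mul hv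
      refine h1.add (Finset.measurable_fun_sum _ (fun i _ => ?_))
      have h3 : Measurable (fun q : Θ × X => V i q.1 (g.W k q.2, q.2)) :=
        (hV1 i).comp (measurable_fst.prodMk (hy.prodMk measurable_snd))
      exact (((hf.fm k i).comp ((g.ψm k).comp measurable_snd)).neg).mul h3
    have hG'm : Measurable (fun q : Θ × X => G' q.1 q.2) :=
      Measurable.ite (measurable_fst hΘcm) measurable_const hGm
    obtain ⟨W1, hW1, hW2, hW3, hW4⟩ := H2 Θ P p hS G' ((1 + N * CV) * M) (by positivity) hG'm
      (by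
        intro θ
        by_cases hθ : θ ∈ Θc
        · simp only [hG', hθ, if_true]
          exact differentiableOn_const _
        · simp only [hG', hθ, if_false]
          exact hGd θ hθ)
      (by
        intro θ z hs hz
        by_cases hθ : θ ∈ Θc
        · simp only [hG', hθ, if_true, norm_zero]
          positivity
        · simp only [hG', hθ, if_false]
          exact hGb θ z hs hz)
    set O' : Set ℂ := {w | w ∈ UH ∧ ∀ i, ‖fh i w‖ < ε'} with hO'
    have hO'o : IsOpen O' := cut_open hfhd ε'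
    have hmemO : ∀ z ∈ Dom g f (insert k J) (min ε₂ ε'), g.W k z ∈ O' := by
      intro z hz
      refine ⟨g.W_im k hz.1, fun i => ?_⟩
      rw [hfW i z hz.1]
      exact lt_of_lt_of_le ((mem_insert_iff.1 hz).2 i) (min_le_right _ _)
    refine ⟨fun θ z => W1 θ z + ∑ i, f k i (g.ψ k z) * V i θ (g.W k z, z), ?_, ?_, ?_, ?_⟩
    · have hy : Measurable (fun q : Θ × X => g.W k q.2) := (g.W_meas k).comp measurable_snd
      refine hW1.add (Finset.measurable_fun_sum _ (fun i _ => ?_))
      have h3 : Measurable (fun q : Θ × X => V i q.1 (g.W k q.2, q.2)) :=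
        (hV1 i).comp (measurable_fst.prodMk (hy.prodMk measurable_snd))
      exact ((hf.fm k i).comp ((g.ψm k).comp measurable_snd)).mul h3
    · intro θ
      refine ((hW2 θ).mono hsub2).fun_add (DifferentiableOn.fun_sum (fun i _ => ?_))
      intro z hz
      have h1 := hf.diffAt g k i hz.1
      have hVO := hV5 i θ O' hO'o (fun w hw _ => cut_mu1 hcut hfhd hw i)
      have hop : IsOpen {q : ℂ × X | q ∈ D ∧ q.1 ∈ O'} :=
        hOv.op.inter (hO'o.preimage continuous_fst)
      have h2 : DifferentiableAt ℂ (V i θ) (g.W k z, z) :=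
        hVO.differentiableAt (hop.mem_nhds ⟨hWD z (hsub1 hz), hmemO z hz⟩)
      have h5 : DifferentiableAt ℂ (fun z : X => (g.W k z, z)) z :=
        (g.W_diff k hz.1).prodMk differentiableAt_id
      have h6 : DifferentiableAt ℂ (fun z : X => V i θ (g.W k z, z)) z :=
        DifferentiableAt.comp (g := V i θ) z h2 h5
      exact (h1.fun_mul h6).differentiableWithinAt
    · intro θ z hz
      have h1 := hW3 θ z (hsub2 hz)
      have h2 : ‖∑ i, f k i (g.ψ k z) * V i θ (g.W k z, z)‖ ≤ N * CV * M := by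
        refine (norm_sum_le _ _).trans ?_
        have h3 : ∀ i ∈ Finset.univ, ‖f k i (g.ψ k z) * V i θ (g.W k z, z)‖ ≤ CV * M := by
          intro i _
          rw [norm_mul]
          have h4 := hf.fb k i _ (g.mem k hz.1)
          have h5 := hV2 i θ _ (hWD z (hsub1 hz))
          rw [hCVM] at h5
          calc _ ≤ 1 * (CV * M) := by gcongr
            _ = CV * M := one_mul _
        refine (Finset.sum_le_sum h3).trans (le_of_eq ?_)
        rw [Finset.sum_const, Finset.card_univ, Fintype.card_fin, nsmul_eq_mul]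
        ring
      refine (norm_add_le _ _).trans ((add_le_add h1 h2).trans (le_of_eq ?_))
      ring
    · intro θ hθ z hs hz
      have h1 := hW4 θ z hs (hsub2 hz)
      have hO'z := hmemO z hz
      beta_reduce
      rw [h1]
      simp only [hG', hθ, if_false, hG]
      rw [indicator_of_mem hO'z.1, cut_one hcut hO'z.1 hO'z.2, one_mul, add_assoc,
        ← Finset.sum_add_distrib]
      have h2 : ∑ i, (-f k i (g.ψ k z) * V i θ (g.W k z, z) +
          f k i (g.ψ k z) * V i θ (g.W k z, z)) = 0 :=
        Finset.sum_eq_zero (fun i _ => by ring)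
      rw [h2, add_zero]
  -- gluing
  refine ⟨fun θ z => if θ ∈ Θc then Fc θ z else Fn θ z,
    Measurable.ite (measurable_fst hΘcm) hFc1 hFn1, ?_, ?_, ?_⟩
  · intro θ
    by_cases hθ : θ ∈ Θc
    · simp only [hθ, if_true]
      exact hFc2 θ
    · simp only [hθ, if_false]
      exact hFn2 θ
  · intro θ z hz
    by_cases hθ : θ ∈ Θc
    · simp only [hθ, if_true]
      refine (hFc3 θ z hz).trans ?_
      have := le_max_left C₁ (C₂ * (1 + N * CV) + N * CV)
      gcongr
    · simp only [hθ, if_false]
      refine (hFn3 θ z hz).trans ?_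
      have := le_max_right C₁ (C₂ * (1 + N * CV) + N * CV)
      gcongr
  · intro θ z hs hz
    by_cases hθ : θ ∈ Θc
    · simp only [hθ, if_true]
      exact hFc4 θ hθ z hs hz
    · simp only [hθ, if_false]
      exact hFn4 θ hθ z hs hz

end

end Pool.Agent.Y263.GF
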