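import Mathlib
import Pool.Agent.Y263.LF.Sol
import Pool.Agent.Y263.GF.Osg

/-!
Solutions of the Bezout equation for functions of one transversal coordinate and an arbitrary finite
family, from solutions over a sublevel set and solutions of the d-bar equations.
-/

set_option autoImplicit false
set_option linter.unusedSectionVars false

open MeasureTheory Metric Set Filter Topology Complex
open scoped ContDiff

namespace Pool.Agent.Y263.GF

open Pool.Agent.H720R2 Pool.Agent.H720R2.HP
open Pool.Agent.H788R3.Cor3 (mul_C1)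
open Pool.Agent.Y263.SC (Ov slice_open Den jones_opX ext_one den2' Ov.UH)

theorem WD_mono {Ω Ω' : Set ℂ} {V ν : ℂ → ℂ} (h : WD Ω V ν) (hs : Ω' ⊆ Ω) : WD Ω' V ν :=
  ⟨h.cont.mono hs, h.li.mono_set hs, fun φ h1 h2 h3 => h.weak φ h1 h2 (h3.trans hs)⟩

variable {E : Type} [NormedAddCommGroup E] [NormedSpace ℂ E] [FiniteDimensional ℂ E]

section

variable {U : Set E} {W : E → ℂ} {κ : Type} [Fintype κ]

variable {N : ℕ} {f : Fin N → ℂ → ℂ} {ε ε' C : ℝ} {ι : Type} {S : Finset ι} {a : ι → ℂ}
  {R : ι → Set ℂ} {χ : Option (Fin N) → ℂ → ℂ}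

/-- **Solutions of the Bezout equation.** -/
theorem solveZ (hU : IsOpen U) (hWd : DifferentiableOn ℂ W U) (hWi : ∀ x ∈ U, 0 < (W x).im)
    (hlp : ∀ x ∈ U, ∀ v : E, fderiv ℂ W x v = 0 → ∀ᶠ t in 𝓝 (0 : ℂ), W (x + t • v) = W x)
    (h : CutP f ε ε' C S a R χ) (hε' : 0 < ε') (hC : 0 ≤ C)
    (hf : ∀ i, DifferentiableOn ℂ (f i) UH) (hfb : ∀ i, ∀ w ∈ UH, ‖f i w‖ ≤ 1)
    {G : κ → E → ℂ} (hG : ∀ m, DifferentiableOn ℂ (G m) U)
    (hGb : ∀ m, ∀ x ∈ U, ‖G m x‖ ≤ 1)
    {O : Set ℂ} (hO : IsOpen O) (hOε : ∀ w ∈ UH, (∀ i, ‖f i w‖ ≤ ε) → w ∈ O)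
    {k : κ → E → ℂ} (hk : ∀ m, DifferentiableOn ℂ (k m) {x | x ∈ U ∧ W x ∈ O})
    {K : ℝ} (hK0 : 0 ≤ K) (hkb : ∀ m, ∀ x ∈ U, W x ∈ O → ‖k m x‖ ≤ K)
    (hGk : ∀ x ∈ U, W x ∈ O → ∑ m, G m x * k m x = 1)
    {C1 : ℝ} {V : Fin N → κ → E → ℂ}
    (hV1 : ∀ i m, ∀ x ∈ U, ‖V i m x‖ ≤ C1)
    (hV2 : ∀ i m, ∀ (Ω : Set ℂ) (γ : ℂ → E), IsOpen Ω → DifferentiableOn ℂ γ Ω → MapsTo γ Ω U →
      (∀ s ∈ Ω, W (γ s) = s) →
      WD Ω (fun s => V i m (γ s)) (fun s => mu1 f S R χ i s * k m (γ s)))
    (hV3 : ∀ i m, ∀ x ∈ U, ∀ v : E, (∀ᶠ t in 𝓝 (0 : ℂ), W (x + t • v) = W x) →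
      DifferentiableAt ℂ (fun t : ℂ => V i m (x + t • v)) 0) :
    ∃ g : Fin N → E → ℂ, ∃ g0 : κ → E → ℂ, (∀ i, DifferentiableOn ℂ (g i) U) ∧
      (∀ m, DifferentiableOn ℂ (g0 m) U) ∧
      (∀ i, ∀ x ∈ U, ‖g i x‖ ≤ 1 / ε' + Fintype.card κ * C1 +
        N * (2 * (2160 * Real.exp C * (2 * C / ε' ^ 2) * 1))) ∧
      (∀ m, ∀ x ∈ U, ‖g0 m x‖ ≤ K + N * C1) ∧
      ∀ x ∈ U, ∑ i, f i (W x) * g i x + ∑ m, G m x * g0 m x = 1 := by
  set D0 : Set (ℂ × ℂ) := {q | 0 < q.1.im} with hD0
  have hr : Ov D0 := ⟨isOpen_lt continuous_const (Complex.continuous_im.comp continuous_fst),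
    fun _ hq => hq⟩
  choose B' hB1' hB2' hB3' using fun i j => jones_opX hr h.fam (ext_one D0) zero_le_one
    (den2' h hε' hC hf i j)
  set B : Fin N → Fin N → ℂ → ℂ := fun i j w => B' i j (w, 0) with hB
  set C2 : ℝ := 2160 * Real.exp C * (2 * C / ε' ^ 2) * 1 with hC2
  have hC20 : 0 ≤ C2 := by positivity
  have hB1 : ∀ i j, ∀ w, 0 < w.im → ‖B i j w‖ ≤ C2 := fun i j w hw => hB1' i j (w, 0) hw
  have hB2 : ∀ i j, ∀ Ω : Set ℂ, Ω ⊆ UH → WD Ω (B i j) (fun w => mu2 f S R χ i j w * (1 : ℂ)⁻¹) :=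
    fun i j Ω hΩ => WD_mono (hB2' i j 0) hΩ
  have hχO : ∀ w ∈ UH, χ none w ≠ 0 → w ∈ O := fun w hw hχ => hOε w hw (h.small w hw hχ)
  have hfne : ∀ i, ∀ w ∈ UH, χ (some i) w ≠ 0 → f i w ≠ 0 := by
    intro i w hw hχ
    exact norm_pos_iff.1 (lt_of_lt_of_le hε' (h.large w hw i hχ))
  have hWat : ∀ x ∈ U, DifferentiableAt ℂ W x := fun x hx => hWd.differentiableAt (hU.mem_nhds hx)
  have hUO : IsOpen {x | x ∈ U ∧ W x ∈ O} := hWd.continuousOn.isOpen_inter_preimage hU hO
  have hO0 : ∀ w ∈ UH, w ∉ O → ∀ᶠ z in 𝓝 w, χ none z = 0 := by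
    intro w hwU hwO
    have h0 : ∃ i, ε < ‖f i w‖ := by
      by_contra hno
      push Not at hno
      exact hwO (hOε w hwU hno)
    obtain ⟨i, hi⟩ := h0
    have hc : ContinuousAt (f i) w := ((hf i).differentiableAt (isOpen_UH.mem_nhds hwU)).continuousAt
    have h1 : ∀ᶠ z in 𝓝 w, ε < ‖f i z‖ := hc.norm.eventually (lt_mem_nhds hi)
    filter_upwards [h1, isOpen_UH.mem_nhds hwU] with z hz1 hz2
    by_contra hne
    exact absurd (h.small z hz2 hne i) (not_le.2 hz1)
  have hf0 : ∀ i, ∀ w ∈ UH, f i w = 0 → ∀ᶠ z in 𝓝 w, χ (some i) z = 0 := by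
    intro i w hw h0
    have hc : ContinuousAt (f i) w := ((hf i).differentiableAt (isOpen_UH.mem_nhds hw)).continuousAt
    have h1 : ∀ᶠ z in 𝓝 w, ‖f i z‖ < ε' :=
      hc.norm.eventually (gt_mem_nhds (by
        change ‖f i w‖ < ε'
        rw [h0, norm_zero]; exact hε'))
    filter_upwards [h1, isOpen_UH.mem_nhds hw] with z hz1 hz2
    by_contra hne
    exact absurd (h.large z hz2 i hne) (not_le.2 hz1)
  -- the functions
  set g0 : κ → E → ℂ := fun m x => χ none (W x) * k m x + ∑ i, -f i (W x) * V i m x with hg0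
  set g : Fin N → E → ℂ := fun i x => χ (some i) (W x) / f i (W x) + ∑ m, G m x * V i m x +
    ∑ j, (f j (W x) * B j i (W x) + -f j (W x) * B i j (W x)) with hg
  have hχle : ∀ o, ∀ w ∈ UH, ∀ (c : ℂ) (κ : ℝ), 0 < κ → (χ o w ≠ 0 → κ ≤ ‖c‖) →
      ‖χ o w / c‖ ≤ 1 / κ := by
    intro o w hw c κ hκ hc
    by_cases hχ : χ o w = 0
    · rw [hχ, zero_div, norm_zero]
      positivity
    · rw [norm_div]
      have h1 := hc hχ
      have h2 := h.bd o w hw
      gcongr
  have hg0b : ∀ m, ∀ x ∈ U, ‖g0 m x‖ ≤ K + N * C1 := by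
    intro m x hx
    refine (norm_add_le _ _).trans (add_le_add ?_ ?_)
    · by_cases hχ : χ none (W x) = 0
      · rw [hχ, zero_mul, norm_zero]
        exact hK0
      · rw [norm_mul]
        have h1 := h.bd none (W x) (hWi x hx)
        have h2 := hkb m x hx (hχO _ (hWi x hx) hχ)
        calc ‖χ none (W x)‖ * ‖k m x‖ ≤ 1 * K := by gcongr
          _ = K := one_mul _
    · refine (norm_sum_le _ _).trans ?_
      have h1 : ∀ i ∈ Finset.univ, ‖-f i (W x) * V i m x‖ ≤ C1 := by
        intro i _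
        rw [norm_mul, norm_neg]
        have h2 := hfb i (W x) (hWi x hx)
        have h3 := hV1 i m x hx
        calc ‖f i (W x)‖ * ‖V i m x‖ ≤ 1 * C1 := by gcongr
          _ = C1 := one_mul _
      refine (Finset.sum_le_sum h1).trans (le_of_eq ?_)
      simp
  have hgb : ∀ i, ∀ x ∈ U, ‖g i x‖ ≤ 1 / ε' + Fintype.card κ * C1 + N * (2 * C2) := by
    intro i x hx
    refine (norm_add_le _ _).trans (add_le_add ((norm_add_le _ _).trans (add_le_add ?_ ?_)) ?_)
    · exact hχle (some i) (W x) (hWi x hx) (f i (W x)) ε' hε' (h.large (W x) (hWi x hx) i)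
    · refine (norm_sum_le _ _).trans ?_
      have h1 : ∀ m ∈ Finset.univ, ‖G m x * V i m x‖ ≤ C1 := by
        intro m _
        rw [norm_mul]
        have h2 := hGb m x hx
        have h3 := hV1 i m x hx
        calc ‖G m x‖ * ‖V i m x‖ ≤ 1 * C1 := by gcongr
          _ = C1 := one_mul _
      refine (Finset.sum_le_sum h1).trans (le_of_eq ?_)
      simp
    · refine (norm_sum_le _ _).trans ?_
      have h1 : ∀ j ∈ Finset.univ, ‖f j (W x) * B j i (W x) + -f j (W x) * B i j (W x)‖ ≤
          2 * C2 := by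
        intro j _
        refine (norm_add_le _ _).trans ?_
        rw [norm_mul, norm_mul, norm_neg]
        have h2 := hfb j (W x) (hWi x hx)
        have h3 := hB1 j i (W x) (hWi x hx)
        have h4 := hB1 i j (W x) (hWi x hx)
        calc ‖f j (W x)‖ * ‖B j i (W x)‖ + ‖f j (W x)‖ * ‖B i j (W x)‖ ≤ 1 * C2 + 1 * C2 := by
              gcongr
          _ = 2 * C2 := by ring
      refine (Finset.sum_le_sum h1).trans (le_of_eq ?_)
      simp
  have hGline : ∀ m, ∀ x ∈ U, ∀ v : E, DifferentiableAt ℂ (fun t : ℂ => G m (x + t • v)) 0 := by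
    intro m x hx v
    have h1 : DifferentiableAt ℂ (G m) (x + (0 : ℂ) • v) := by
      rw [zero_smul, add_zero]
      exact (hG m).differentiableAt (hU.mem_nhds hx)
    exact DifferentiableAt.comp (g := G m) (f := fun t : ℂ => x + t • v) 0 h1 (by fun_prop)
  refine ⟨g, g0, ?_, ?_, hgb, hg0b, ?_⟩
  · intro i
    refine line_holo hU hWd hlp (hgb i) ?_ ?_
    · intro x hx v hconst
      have hsumV : DifferentiableAt ℂ (fun t : ℂ => ∑ m, G m (x + t • v) * V i m (x + t • v)) 0 :=
        DifferentiableAt.fun_sum (fun m _ => (hGline m x hx v).fun_mul (hV3 i m x hx v hconst))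
      have h1 : DifferentiableAt ℂ (fun t : ℂ => χ (some i) (W x) / f i (W x) +
          ∑ m, G m (x + t • v) * V i m (x + t • v) +
          ∑ j, (f j (W x) * B j i (W x) + -f j (W x) * B i j (W x))) 0 :=
        ((differentiableAt_const _).fun_add hsumV).fun_add (differentiableAt_const _)
      refine h1.congr_of_eventuallyEq ?_
      filter_upwards [hconst] with t ht
      simp only [hg]
      rw [ht]
    · intro Ω γ hΩ hγ hγm hγW
      have hΩU : Ω ⊆ UH := by
        intro s hs
        rw [← hγW s hs]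
        exact hWi _ (hγm hs)
      have hGs : ∀ m, DifferentiableOn ℂ (fun s => G m (γ s)) Ω := fun m => (hG m).comp hγ hγm
      obtain ⟨hc1, hc2⟩ := inv_C1 hΩ hΩU
        ((hf i).mono hΩU) (h.smooth (some i))
        (fun w hw => hf0 i w (hΩU hw))
      have hw1 : WD Ω (fun w => χ (some i) w / f i w) (fun w => db (χ (some i)) w / f i w) :=
        (WD.of_C1 hΩ hc1).congr hΩ (fun _ _ => rfl) (fun w hw => (hc2 w hw).symm)
      have hw2 := WD.sum hΩ (Finset.univ : Finset (κ))
        (V := fun m w => G m (γ w) * V i m (γ w))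
        (ν := fun m w => G m (γ w) * (mu1 f S R χ i w * k m (γ w)))
        (fun m _ => (hV2 i m Ω γ hΩ hγ hγm hγW).mul_holo hΩ (hGs m))
      have hw3 := WD.sum hΩ (Finset.univ : Finset (Fin N))
        (V := fun j w => f j w * B j i w + -f j w * B i j w)
        (ν := fun j w => f j w * (mu2 f S R χ j i w * (1 : ℂ)⁻¹) +
          -f j w * (mu2 f S R χ i j w * (1 : ℂ)⁻¹))
        (fun j _ => ((hB2 j i Ω hΩU).mul_holo hΩ ((hf j).mono hΩU)).add hΩ
          ((hB2 i j Ω hΩU).mul_holo hΩ ((hf j).mono hΩU).neg))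
      have hholo : DifferentiableOn ℂ (fun w => χ (some i) w / f i w +
          ∑ m, G m (γ w) * V i m (γ w) + ∑ j, (f j w * B j i w + -f j w * B i j w)) Ω := by
        refine ((hw1.add hΩ hw2).add hΩ hw3).holo hΩ ?_
        intro w hw
        have hwU := hΩU hw
        have e1 : ∑ m, G m (γ w) * (mu1 f S R χ i w * k m (γ w)) =
            starRingEnd ℂ (f i w) / (DD f w : ℂ) * db (χ none) w := by
          rw [mu1_eq h hwU]
          by_cases hd : db (χ none) w = 0
          · rw [hd]
            simp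
          · have h2 : w ∈ O := hOε w hwU (fun i => h.d_none hf hwU (db_ne hd) i)
            have h3 := hGk (γ w) (hγm hw) (by rw [hγW w hw]; exact h2)
            have h4 : ∀ m, G m (γ w) * (starRingEnd ℂ (f i w) / (DD f w : ℂ) * db (χ none) w *
                k m (γ w)) = (starRingEnd ℂ (f i w) / (DD f w : ℂ) * db (χ none) w) *
                (G m (γ w) * k m (γ w)) := fun m => by ring
            simp only [h4]
            rw [← Finset.mul_sum, h3, mul_one]
        have e2 : ∑ j, (f j w * (mu2 f S R χ j i w * (1 : ℂ)⁻¹) +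
            -f j w * (mu2 f S R χ i j w * (1 : ℂ)⁻¹)) = -ee f χ i w := by
          simp only [inv_one, mul_one, mu2_eq h hε' hf hwU]
          rw [Finset.sum_add_distrib]
          have h1 : ∑ j, f j w * (starRingEnd ℂ (f i w) / (DD f w : ℂ) * ee f χ j w) = 0 := by
            have h2 : ∀ j, f j w * (starRingEnd ℂ (f i w) / (DD f w : ℂ) * ee f χ j w) =
                (starRingEnd ℂ (f i w) / (DD f w : ℂ)) * (f j w * ee f χ j w) := fun j => by ring
            simp only [h2]
            rw [← Finset.mul_sum, sum_ee h hε' hf hwU, mul_zero]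
          have h3 : ∑ j, -f j w * (starRingEnd ℂ (f j w) / (DD f w : ℂ) * ee f χ i w) =
              -ee f χ i w := by
            by_cases he : ee f χ i w = 0
            · rw [he]
              simp
            · have h4 := (ee_ne h hε' hf hwU he).1
              have h5 : (DD f w : ℂ) ≠ 0 := by
                have : 0 < DD f w := lt_of_lt_of_le (by positivity) h4
                exact_mod_cast this.ne'
              have h6 : ∀ j, -f j w * (starRingEnd ℂ (f j w) / (DD f w : ℂ) * ee f χ i w) =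
                  (f j w * starRingEnd ℂ (f j w)) * (-((DD f w : ℂ)⁻¹ * ee f χ i w)) :=
                fun j => by ring
              simp only [h6]
              rw [← Finset.sum_mul, conj_sum, mul_neg, ← mul_assoc, mul_inv_cancel₀ h5, one_mul]
          rw [h1, h3, zero_add]
        rw [e1, e2]
        unfold ee
        ring
      refine hholo.congr (fun s hs => ?_)
      simp only [hg]
      rw [hγW s hs]
  · intro m
    refine line_holo hU hWd hlp (hg0b m) ?_ ?_
    · intro x hx v hconst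
      have hsum : DifferentiableAt ℂ (fun t : ℂ => ∑ i, -f i (W x) * V i m (x + t • v)) 0 :=
        DifferentiableAt.fun_sum (fun i _ => (hV3 i m x hx v hconst).const_mul _)
      have h1 : DifferentiableAt ℂ (fun t : ℂ => χ none (W x) * k m (x + t • v)) 0 := by
        by_cases hχ : χ none (W x) = 0
        · simp only [hχ, zero_mul]
          exact differentiableAt_const _
        · have hwO : W x ∈ O := hχO (W x) (hWi x hx) hχ
          have h2 : DifferentiableAt ℂ (k m) (x + (0 : ℂ) • v) := by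
            rw [zero_smul, add_zero]
            exact (hk m).differentiableAt (hUO.mem_nhds ⟨hx, hwO⟩)
          exact (DifferentiableAt.comp (g := k m) (f := fun t : ℂ => x + t • v) 0 h2
            (by fun_prop)).const_mul _
      have h3 := h1.fun_add hsum
      refine h3.congr_of_eventuallyEq ?_
      filter_upwards [hconst] with t ht
      simp only [hg0]
      rw [ht]
    · intro Ω γ hΩ hγ hγm hγW
      have hΩU : Ω ⊆ UH := by
        intro s hs
        rw [← hγW s hs]
        exact hWi _ (hγm hs)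
      obtain ⟨hc1, hc2⟩ := mul_C1 hΩ hO hΩU (g := fun s => k m (γ s))
        (by
          rintro s ⟨hs, hsO⟩
          have h1 : DifferentiableAt ℂ (k m) (γ s) :=
            (hk m).differentiableAt (hUO.mem_nhds ⟨hγm hs, by rw [hγW s hs]; exact hsO⟩)
          exact (DifferentiableAt.comp s h1
            (hγ.differentiableAt (hΩ.mem_nhds hs))).differentiableWithinAt)
        (h.smooth none) (fun w hw hwO => hO0 w (hΩU hw) hwO)
      have hw1 : WD Ω (fun w => χ none w * k m (γ w)) (fun w => db (χ none) w * k m (γ w)) :=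
        (WD.of_C1 hΩ hc1).congr hΩ (fun _ _ => rfl) (fun w hw => (hc2 w hw).symm)
      have hw3 := WD.sum hΩ (Finset.univ : Finset (Fin N))
        (V := fun i w => -f i w * V i m (γ w))
        (ν := fun i w => -f i w * (mu1 f S R χ i w * k m (γ w)))
        (fun i _ => (hV2 i m Ω γ hΩ hγ hγm hγW).mul_holo hΩ ((hf i).mono hΩU).neg)
      have hholo : DifferentiableOn ℂ (fun w => χ none w * k m (γ w) +
          ∑ i, -f i w * V i m (γ w)) Ω := by
        refine (hw1.add hΩ hw3).holo hΩ ?_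
        intro w hw
        have hwU := hΩU hw
        simp only [mu1_eq h hwU]
        have h1 : ∀ i, -f i w * (starRingEnd ℂ (f i w) / (DD f w : ℂ) * db (χ none) w *
            k m (γ w)) =
            (f i w * (starRingEnd ℂ (f i w) / (DD f w : ℂ) * db (χ none) w)) * (-k m (γ w)) :=
          fun i => by ring
        simp only [h1]
        rw [← Finset.sum_mul, sum_mu1 h hε' hf hwU]
        ring
      refine hholo.congr (fun s hs => ?_)
      simp only [hg0]
      rw [hγW s hs]
  · intro x hx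
    have hw := hWi x hx
    have e1 : χ none (W x) * ∑ m, G m x * k m x = χ none (W x) := by
      by_cases hχ : χ none (W x) = 0
      · rw [hχ, zero_mul]
      · rw [hGk x hx (hχO _ hw hχ), mul_one]
    have e2 : ∀ i, f i (W x) * (χ (some i) (W x) / f i (W x)) = χ (some i) (W x) := by
      intro i
      by_cases hχ : χ (some i) (W x) = 0
      · rw [hχ, zero_div, mul_zero]
      · have h3 := hfne i (W x) hw hχ
        field_simp
    have e3 : ∀ i, f i (W x) * g i x = χ (some i) (W x) + ∑ m, G m x * (f i (W x) * V i m x) +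
        ∑ j, (f i (W x) * f j (W x) * B j i (W x) - f j (W x) * f i (W x) * B i j (W x)) := by
      intro i
      simp only [hg]
      rw [mul_add, mul_add, e2, Finset.mul_sum, Finset.mul_sum]
      congr 1
      · congr 1
        refine Finset.sum_congr rfl (fun m _ => ?_)
        ring
      · refine Finset.sum_congr rfl (fun j _ => ?_)
        ring
    have e4 : ∑ i, ∑ j, (f i (W x) * f j (W x) * B j i (W x) -
        f j (W x) * f i (W x) * B i j (W x)) = 0 := by
      simp only [Finset.sum_sub_distrib]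
      rw [sub_eq_zero]
      exact Finset.sum_comm
    have e5 : ∑ m, G m x * g0 m x = χ none (W x) - ∑ i, ∑ m, G m x * (f i (W x) * V i m x) := by
      have h1 : ∀ m, G m x * g0 m x = χ none (W x) * (G m x * k m x) -
          ∑ i, G m x * (f i (W x) * V i m x) := by
        intro m
        simp only [hg0]
        rw [mul_add, Finset.mul_sum, sub_eq_add_neg, ← Finset.sum_neg_distrib]
        congr 1
        · ring
        · refine Finset.sum_congr rfl (fun i _ => ?_)
          ring
      simp only [h1]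
      rw [Finset.sum_sub_distrib, ← Finset.mul_sum, e1, Finset.sum_comm]
    have e6 := h.sum (W x) hw
    rw [Fintype.sum_option] at e6
    simp only [e3]
    rw [Finset.sum_add_distrib, Finset.sum_add_distrib, e4, e5]
    linear_combination e6

end

end Pool.Agent.Y263.GF
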