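import Mathlib
import Pool.Agent.Y263.GF.Ext
import Pool.Agent.Y263.GF.Sol
import Pool.Agent.Y263.LF.Loc

/-!
Localisation for functions with affine fibres: from solutions of the Bezout equation on the set
where finitely many functions are small to solutions on the whole domain.
-/

set_option autoImplicit false
set_option linter.unusedSectionVars false

open MeasureTheory Metric Set Filter Topology Complex
open scoped ContDiff

namespace Pool.Agent.Y263.GF

open Pool.Agent.H720R2 Pool.Agent.H720R2.HP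
open Pool.Agent.H788R3.Cor2 (cy yc cy_mem cy_mem' cy_diff cy_diffAt cy_yc yc_im yc_diff osgood2)
open Pool.Agent.H788R3.Cor3 (mul_C1 exhaust3)
open Pool.Agent.Y263.SC (Ov slice_open Den AA den1' Ov.UH)
open Pool.Agent.Y263.LF (OP Bez Bez.mono cut_one cut_open cut_mu1 cut_meas cut_zero)

/-- extension for all finite families -/
theorem ext_all (N m : ℕ) {C0 : ℝ} (hC0 : 0 ≤ C0) : ∀ ε : ℝ, 0 < ε → ε ≤ 1 →
    ∃ ε' C : ℝ, 0 < ε' ∧ ε' ≤ ε ∧ 0 ≤ C ∧
    ∀ (X : Type) [NormedAddCommGroup X] [InnerProductSpace ℂ X] [FiniteDimensional ℂ X]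
      [MeasurableSpace X] [BorelSpace X] (κ : Type) [DecidableEq κ] (g : Geo X κ)
      (f : κ → Fin N → ℂ → ℂ), FD f → Ext0 g g.Ω g.Ω C0 → ∀ (I : Finset κ), I.card = m →
      Ext0 g (Dom g f I ε) (Dom g f I ε') C := by
  induction m with
  | zero =>
    intro ε hε _
    refine ⟨ε, C0, hε, le_rfl, hC0, ?_⟩
    intro X _ _ _ _ _ κ _ g f hf hg I hI
    have hI0 : I = ∅ := Finset.card_eq_zero.1 hI
    subst hI0
    have h1 : Dom g f ∅ ε = g.Ω := by
      ext z
      exact ⟨fun hz => hz.1, fun hz => ⟨hz, fun k hk => absurd hk (Finset.notMem_empty _)⟩⟩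
    rw [h1]
    exact hg
  | succ m ih =>
    intro ε hε hε1
    obtain ⟨ε₁, C₁, hε₁, hε₁ε, hC₁, H1⟩ := ih ε hε hε1
    obtain ⟨ε₂, C₂, hε₂, hε₂ε, hC₂, H2⟩ := ih ε₁ hε₁ (hε₁ε.trans hε1)
    obtain ⟨ε', C, hε', hC, hcutN⟩ := cutN N (ε := ε / 2) (by positivity) (by linarith)
    refine ⟨min ε₂ ε', _, lt_min hε₂ hε', (min_le_left _ _).trans (hε₂ε.trans hε₁ε),
      hC₁.trans (le_max_left C₁ (C₂ * (1 + N * (2160 * Real.exp C * (C / ε') * C₁)) +
        N * (2160 * Real.exp C * (C / ε') * C₁))), ?_⟩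
    intro X _ _ _ _ _ κ _ g f hf hg I hI
    obtain ⟨k, J, hkJ, rfl, hJ⟩ := Finset.card_eq_succ.1 hI
    obtain ⟨S, a, R, χ, hcut⟩ := hcutN (fun i w => f k i (cy g.r w)) ((1 - g.r ^ 2) / 16)
      (fun i => g.nice hf k i) (fun i => g.lim hf k i)
    exact ext_step hf (H1 X κ g f hf hg J hJ) (H2 X κ g f hf hg J hJ) hε hε₁ε hε₂ε hC₁ hC₂ hε'
      hC.le hcut

section

variable {X : Type} [NormedAddCommGroup X] [InnerProductSpace ℂ X] [FiniteDimensional ℂ X]
  [MeasurableSpace X] [BorelSpace X] {κ : Type} [DecidableEq κ] {N : ℕ}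

/-- one step of the localisation -/
theorem loc_step {g : Geo X κ} {f : κ → Fin N → ℂ → ℂ} (hf : FD f) {J : Finset κ} {k : κ}
    {ε ε₁ C₁ Q : ℝ} (H1 : Ext0 g (Dom g f J ε) (Dom g f J ε₁) C₁) (hε : 0 < ε)
    (hε₁ε : ε₁ ≤ ε) (hC₁ : 0 ≤ C₁) (hQ : 0 ≤ Q) {ε' C : ℝ} (hε' : 0 < ε') (hC : 0 ≤ C)
    {ι : Type} {S : Finset ι} {a : ι → ℂ} {R : ι → Set ℂ} {χ : Option (Fin N) → ℂ → ℂ}
    (hcut : CutP (fun i w => f k i (cy g.r w)) (ε / 2) ε' C S a R χ)
    {J' : Type} [Fintype J'] {M : ℕ} (hJ' : Fintype.card J' = M)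
    {G : J' → X → ℂ} (hG : ∀ j, DifferentiableOn ℂ (G j) g.Ω)
    (hGb : ∀ j, ∀ z ∈ g.Ω, ‖G j z‖ ≤ 1) (hbez : Bez (Dom g f (insert k J) ε) G Q) :
    Bez (Dom g f J ε₁) (Sum.elim (fun (i : Fin N) z => f k i (g.ψ k z)) G)
      (max (1 / ε) (max (1 / ε' + M * (2160 * Real.exp C * (C / ε') * (C₁ * Q)) +
        N * (2 * (2160 * Real.exp C * (2 * C / ε' ^ 2) * 1)))
        (Q + N * (2160 * Real.exp C * (C / ε') * (C₁ * Q))))) := by
  set CV : ℝ := 2160 * Real.exp C * (C / ε') * (C₁ * Q) with hCV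
  have hCV0 : 0 ≤ CV := by positivity
  set A1 : ℝ := 1 / ε' + M * CV + N * (2 * (2160 * Real.exp C * (2 * C / ε' ^ 2) * 1)) with hA1
  set A2 : ℝ := Q + N * CV with hA2
  obtain ⟨k', hk', hkb', hGk'⟩ := hbez
  have hQm : Q ≤ max (1 / ε) (max A1 A2) := by
    have h1 : Q ≤ A2 := by rw [hA2]; linarith [mul_nonneg (Nat.cast_nonneg (α := ℝ) N) hCV0]
    exact (h1.trans (le_max_right _ _)).trans (le_max_right _ _)
  have hid : OP (ContinuousLinearMap.id ℂ X) := OP.id
  by_cases hu : g.cs k (ContinuousLinearMap.id ℂ X) 0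
  · set c : ℂ := g.cv k (ContinuousLinearMap.id ℂ X) 0 with hc
    have hin : ∀ z ∈ g.Ω, g.ψ k z = c := fun z hz =>
      g.cs1 k _ 0 hid g.adm1 (map_zero _) hu z hz (by simp)
    by_cases h0 : ∀ i, ‖f k i c‖ < ε
    · have hsub : Dom g f J ε₁ ⊆ Dom g f (insert k J) ε := by
        intro z hz
        refine mem_insert_iff.2 ⟨Dom_mono hε₁ε hz, fun i => ?_⟩
        rw [hin z hz.1]
        exact h0 i
      refine ⟨Sum.elim (fun _ _ => 0) k', ?_, ?_, ?_⟩
      · rintro (i | j)
        · exact differentiableOn_const _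
        · exact (hk' j).mono hsub
      · rintro (i | j) z hz
        · simp only [Sum.elim_inl, norm_zero]
          exact hQ.trans hQm
        · exact (hkb' j z (hsub hz)).trans hQm
      · intro z hz
        rw [Fintype.sum_sum_type]
        simp only [Sum.elim_inl, Sum.elim_inr, mul_zero, Finset.sum_const_zero, zero_add]
        exact hGk' z (hsub hz)
    · push Not at h0
      obtain ⟨i0, hi0⟩ := h0
      have hne : f k i0 c ≠ 0 := by
        intro h
        rw [h, norm_zero] at hi0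
        linarith
      refine ⟨Sum.elim (fun i _ => if i = i0 then (f k i0 c)⁻¹ else 0) (fun _ _ => 0), ?_, ?_, ?_⟩
      · rintro (i | j)
        · exact differentiableOn_const _
        · exact differentiableOn_const _
      · rintro (i | j) z hz
        · simp only [Sum.elim_inl]
          split_ifs with h
          · rw [norm_inv]
            refine le_trans ?_ (le_max_left _ _)
            rw [one_div]
            exact inv_anti₀ hε hi0
          · rw [norm_zero]
            exact hQ.trans hQm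
        · simp only [Sum.elim_inr, norm_zero]
          exact hQ.trans hQm
      · intro z hz
        rw [Fintype.sum_sum_type]
        simp only [Sum.elim_inl, Sum.elim_inr, mul_zero, Finset.sum_const_zero, add_zero,
          hin z hz.1, mul_ite, Finset.sum_ite_eq', Finset.mem_univ, if_true]
        exact mul_inv_cancel₀ hne
  · -- the main case
    classical
    have hDo : IsOpen (Dom g f (insert k J) ε) := hf.open g _ ε
    have hUo : IsOpen (Dom g f J ε₁) := hf.open g J ε₁
    set kk : J' → X → ℂ := fun j => (Dom g f (insert k J) ε).indicator (k' j) with hkk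
    have hkkeq : ∀ j, ∀ z ∈ Dom g f (insert k J) ε, kk j z = k' j z := fun j z hz =>
      indicator_of_mem hz _
    have hkd : ∀ j, DifferentiableOn ℂ (kk j) (Dom g f (insert k J) ε) := fun j =>
      (hk' j).congr (fun z hz => hkkeq j z hz)
    have hkb : ∀ j, ∀ z ∈ Dom g f (insert k J) ε, ‖kk j z‖ ≤ Q := fun j z hz => by
      rw [hkkeq j z hz]
      exact hkb' j z hz
    have hGk : ∀ z ∈ Dom g f (insert k J) ε, ∑ j, G j z * kk j z = 1 := fun z hz => by
      rw [← hGk' z hz]
      exact Finset.sum_congr rfl (fun j _ => by rw [hkkeq j z hz])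
    have hkm : ∀ j, Measurable (kk j) := by
      intro j
      rw [hkk]
      beta_reduce
      rw [← Set.piecewise_eq_indicator]
      exact ContinuousOn.measurable_piecewise (hk' j).continuousOn continuousOn_const
        hDo.measurableSet
    have hS : Sli g (Θ := Unit) (fun _ => ContinuousLinearMap.id ℂ X) (fun _ => 0) :=
      ⟨measurable_snd, measurable_const, fun _ => hid, fun _ => g.adm1, fun _ => map_zero _⟩
    set fh : Fin N → ℂ → ℂ := fun i w => f k i (cy g.r w) with hfh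
    have hfhd : ∀ i, DifferentiableOn ℂ (fh i) UH := fun i => g.cyd' hf k i
    have hop := fun j : J' => opG hf H1 hC₁ (by linarith : ε / 2 < ε) hε' hC hS
      (v := fun _ => kk j) hQ ((hkm j).comp measurable_snd)
      (by
        intro _
        refine (hkd j).comp (by fun_prop) ?_
        intro x hx
        exact hx)
      (fun _ z _ hz => hkb j z hz) hcut
    choose V hV1 hV2 hV3 hV4 hV5 using hop
    set O : Set ℂ := {w | w ∈ UH ∧ ∀ i, ‖fh i w‖ < ε} with hO
    have hOo : IsOpen O := cut_open hfhd ε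
    have hfW : ∀ i, ∀ z ∈ g.Ω, fh i (g.W k z) = f k i (g.ψ k z) := by
      intro i z hz
      simp only [hfh]
      rw [g.cy_W k hz]
    have hdomO : ∀ z ∈ Dom g f J ε₁, g.W k z ∈ O → z ∈ Dom g f (insert k J) ε := by
      intro z hz hzO
      refine mem_insert_iff.2 ⟨Dom_mono hε₁ε hz, fun i => ?_⟩
      rw [← hfW i z hz.1]
      exact hzO.2 i
    obtain ⟨h, h0, s1, s2, s3, s4, s5⟩ := solveZ (U := Dom g f J ε₁) (W := g.W k) hUo
      (fun z hz => (g.W_diff k hz.1).differentiableWithinAt) (fun z hz => g.W_im k hz.1)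
      (fun z hz v hv => g.W_lp k hz.1 hv) hcut hε' hC hfhd
      (fun i w hw => hf.fb k i _ (cy_mem' g.r0 g.r1 hw)) (G := G)
      (fun j => (hG j).mono (fun z hz => hz.1)) (fun j z hz => hGb j z hz.1) hOo
      (fun w hw hi => ⟨hw, fun i => lt_of_le_of_lt (hi i) (by linarith)⟩) (k := kk)
      (fun j => (hkd j).mono (fun z hz => hdomO z hz.1 hz.2)) hQ
      (fun j z hz hzO => hkb j z (hdomO z hz hzO)) (fun z hz hzO => hGk z (hdomO z hz hzO))
      (C1 := CV) (V := fun i j z => V j i () (g.W k z, z))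
      (fun i j z hz => hV2 j i () _ ⟨g.W_im k hz.1, hz⟩)
      (by
        intro i j Ω' γ hΩ' hγ hγm hγW
        have hΩU : ∀ s ∈ Ω', 0 < s.im := by
          intro s hs
          rw [← hγW s hs]
          exact g.W_im k (hγm hs).1
        refine (hV3 j i () hu Ω' γ hΩ' hγ hγm hΩU ?_ ?_).congr hΩ' ?_ (fun _ _ => rfl)
        · intro s hs
          rw [← g.cy_W k (hγm hs).1, hγW s hs]
        · intro s _
          simp
        · intro s hs
          change V j i () (g.W k (γ s), γ s) = V j i () (s, γ s)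
          rw [hγW s hs])
      (by
        intro i j z hz v hconst
        have h1 : DifferentiableAt ℂ (fun y => V j i () (g.W k z, y)) (z + (0 : ℂ) • v) := by
          rw [zero_smul, add_zero]
          exact (hV4 j i () _ (g.W_im k hz.1)).differentiableAt (hUo.mem_nhds hz)
        have h2 := DifferentiableAt.comp (g := fun y => V j i () (g.W k z, y))
          (f := fun t : ℂ => z + t • v) 0 h1 (by fun_prop)
        refine h2.congr_of_eventuallyEq ?_
        filter_upwards [hconst] with t ht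
        change V j i () (g.W k (z + t • v), z + t • v) = V j i () (g.W k z, z + t • v)
        rw [ht])
    rw [hJ'] at s3
    refine ⟨Sum.elim h h0, ?_, ?_, ?_⟩
    · rintro (i | j)
      · exact s1 i
      · exact s2 j
    · rintro (i | j) z hz
      · exact (s3 i z hz).trans ((le_max_left _ _).trans (le_max_right _ _))
      · exact (s4 j z hz).trans ((le_max_right _ _).trans (le_max_right _ _))
    · intro z hz
      have h3 := s5 z hz
      rw [Fintype.sum_sum_type]
      simp only [Sum.elim_inl, Sum.elim_inr]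
      rw [← h3]
      congr 1
      refine Finset.sum_congr rfl (fun i _ => ?_)
      rw [← hfW i z hz.1]

/-- the functions which are still present -/
def TI {J' : Type} (g : Geo X κ) (f : κ → Fin N → ℂ → ℂ) (G : J' → X → ℂ)
    (I : Finset κ) : (κ × Fin N) ⊕ J' → X → ℂ :=
  Sum.elim (fun q z => if q.1 ∈ I then 0 else f q.1 q.2 (g.ψ q.1 z)) G

theorem TI_diff {J' : Type} {g : Geo X κ} {f : κ → Fin N → ℂ → ℂ}
    (hf : FD f) {G : J' → X → ℂ} (hG : ∀ j, DifferentiableOn ℂ (G j) g.Ω)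
    (I : Finset κ) (q : (κ × Fin N) ⊕ J') : DifferentiableOn ℂ (TI g f G I q) g.Ω := by
  rcases q with q | j
  · by_cases h : q.1 ∈ I
    · have h1 : TI g f G I (Sum.inl q) = fun _ => 0 := by
        funext z
        simp [TI, h]
      rw [h1]
      exact differentiableOn_const _
    · have h1 : TI g f G I (Sum.inl q) = fun z => f q.1 q.2 (g.ψ q.1 z) := by
        funext z
        simp [TI, h]
      rw [h1]
      intro z hz
      exact (hf.diffAt g q.1 q.2 hz).differentiableWithinAt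
  · exact hG j

theorem TI_bd {J' : Type} {g : Geo X κ} {f : κ → Fin N → ℂ → ℂ}
    (hf : FD f) {G : J' → X → ℂ} (hG : ∀ j, ∀ z ∈ g.Ω, ‖G j z‖ ≤ 1)
    (I : Finset κ) (q : (κ × Fin N) ⊕ J') : ∀ z ∈ g.Ω, ‖TI g f G I q z‖ ≤ 1 := by
  intro z hz
  rcases q with q | j
  · by_cases h : q.1 ∈ I
    · simp [TI, h]
    · simp only [TI, Sum.elim_inl, h, if_false]
      exact hf.fb _ _ _ (g.mem q.1 hz)
  · exact hG j z hz

theorem TI_merge [Fintype κ] {J' : Type} [Fintype J'] {g : Geo X κ} {f : κ → Fin N → ℂ → ℂ}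
    {G : J' → X → ℂ} {I : Finset κ} {k : κ} (hk : k ∉ I) {Ω : Set X} {C : ℝ}
    (h : Bez Ω (Sum.elim (fun (i : Fin N) z => f k i (g.ψ k z)) (TI g f G (insert k I))) C) :
    Bez Ω (TI g f G I) C := by
  obtain ⟨h, h1, h2, h3⟩ := h
  refine ⟨Sum.elim (fun q z => if q.1 = k then h (Sum.inl q.2) z else h (Sum.inr (Sum.inl q)) z)
    (fun j z => h (Sum.inr (Sum.inr j)) z), ?_, ?_, ?_⟩
  · rintro (q | j)
    · by_cases hq : q.1 = k
      · simp only [Sum.elim_inl, hq, if_true]
        exact h1 _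
      · simp only [Sum.elim_inl, hq, if_false]
        exact h1 _
    · exact h1 _
  · rintro (q | j) z hz
    · by_cases hq : q.1 = k
      · simp only [Sum.elim_inl, hq, if_true]
        exact h2 _ z hz
      · simp only [Sum.elim_inl, hq, if_false]
        exact h2 _ z hz
    · exact h2 _ z hz
  · intro z hz
    have h4 := h3 z hz
    rw [Fintype.sum_sum_type, Fintype.sum_sum_type, Fintype.sum_prod_type] at h4
    rw [Fintype.sum_sum_type, Fintype.sum_prod_type]
    simp only [Sum.elim_inl, Sum.elim_inr, TI] at h4 ⊢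
    rw [← h4, ← add_assoc]
    congr 1
    have h5 : ∀ k' : κ, ∑ i, (if k' ∈ I then (0 : ℂ) else f k' i (g.ψ k' z)) *
        (if k' = k then h (Sum.inl i) z else h (Sum.inr (Sum.inl (k', i))) z) =
        (if k' = k then ∑ i, f k i (g.ψ k z) * h (Sum.inl i) z else 0) +
        ∑ i, (if k' ∈ insert k I then (0 : ℂ) else f k' i (g.ψ k' z)) *
          h (Sum.inr (Sum.inl (k', i))) z := by
      intro k'
      by_cases hk' : k' = k
      · subst hk'
        simp [hk]
      · simp [hk']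
    simp only [h5]
    rw [Finset.sum_add_distrib, Finset.sum_ite_eq' Finset.univ k, if_pos (Finset.mem_univ _)]

end

/-- the induction over the functions -/
theorem loc_ind (N K M : ℕ) {C0 : ℝ} (hC0 : 0 ≤ C0) (m : ℕ) :
    ∀ (ε Q : ℝ), 0 < ε → ε ≤ 1 → 0 ≤ Q →
    ∃ C : ℝ, 0 ≤ C ∧ ∀ (X : Type) [NormedAddCommGroup X]
    [InnerProductSpace ℂ X] [FiniteDimensional ℂ X] [MeasurableSpace X] [BorelSpace X]
    (g : Geo X (Fin K)) (f : Fin K → Fin N → ℂ → ℂ), FD f → Ext0 g g.Ω g.Ω C0 →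
    ∀ (I : Finset (Fin K)), I.card = m →
    ∀ (G : Fin M → X → ℂ), (∀ j, DifferentiableOn ℂ (G j) g.Ω) →
    (∀ j, ∀ z ∈ g.Ω, ‖G j z‖ ≤ 1) →
    Bez (Dom g f I ε) (TI g f G I) Q → Bez g.Ω (TI g f G ∅) C := by
  induction m with
  | zero =>
    intro ε Q hε hε1 hQ
    refine ⟨Q, hQ, ?_⟩
    intro X _ _ _ _ _ g f hf hg I hI G hG hGb h
    have hI0 : I = ∅ := Finset.card_eq_zero.1 hI
    subst hI0
    exact h.mono (fun z hz => ⟨hz, fun k hk => absurd hk (Finset.notMem_empty _)⟩) le_rfl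
  | succ m ih =>
    intro ε Q hε hε1 hQ
    obtain ⟨ε₁, C₁, hε₁, hε₁ε, hC₁, H⟩ := ext_all N m hC0 ε hε hε1
    obtain ⟨ε', C, hε', hC, hcutN⟩ := cutN N (ε := ε / 2) (by positivity) (by linarith)
    set Q' : ℝ := max (1 / ε) (max (1 / ε' + ((K * N + M : ℕ) : ℝ) *
      (2160 * Real.exp C * (C / ε') * (C₁ * Q)) +
        N * (2 * (2160 * Real.exp C * (2 * C / ε' ^ 2) * 1)))
        (Q + N * (2160 * Real.exp C * (C / ε') * (C₁ * Q)))) with hQ'
    have hQ'0 : 0 ≤ Q' := le_trans (by positivity) (le_max_left _ _)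
    obtain ⟨C', hC', H2⟩ := ih ε₁ Q' hε₁ (hε₁ε.trans hε1) hQ'0
    refine ⟨C', hC', ?_⟩
    intro X _ _ _ _ _ g f hf hg I hI G hG hGb h
    obtain ⟨k, J, hkJ, rfl, hJ⟩ := Finset.card_eq_succ.1 hI
    refine H2 X g f hf hg J hJ G hG hGb ?_
    refine TI_merge hkJ ?_
    obtain ⟨S, a, R, χ, hcut⟩ := hcutN (fun i w => f k i (cy g.r w)) ((1 - g.r ^ 2) / 16)
      (fun i => g.nice hf k i) (fun i => g.lim hf k i)
    exact loc_step hf (H X (Fin K) g f hf hg J hJ) hε hε₁ε hC₁ hQ hε' hC.le hcut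
      (J' := (Fin K × Fin N) ⊕ Fin M) (M := K * N + M) (by simp)
      (fun q => TI_diff hf hG _ q) (fun q => TI_bd hf hGb _ q) h

end Pool.Agent.Y263.GF
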