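import Mathlib
import Pool.Agent.Y263.GF.Fib
import Pool.Agent.Y263.GF.Loc

/-!
The unit ball with functions with affine fibres.
-/

set_option autoImplicit false
set_option linter.unusedSectionVars false

open MeasureTheory Metric Set Filter Topology Complex
open scoped ContDiff

namespace Pool.Agent.Y263.GF

open Pool.Agent.H788R3.Cor3 (exhaust3)
open Pool.Agent.Y263.LF (OP PQ RT RT_lt RT_diff RT_slice RT_id Bez Bez.mono)

section

variable {X : Type} [NormedAddCommGroup X] [InnerProductSpace ℂ X] [FiniteDimensional ℂ X]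
  [MeasurableSpace X] [BorelSpace X] {κ : Type}

theorem foot_lt {P : X →L[ℂ] X} (hP : OP P) {z p : X} {R : ℝ} (hz : ‖z‖ < R) (hs : z - P z = p) :
    ‖p‖ < R := by
  have h1 := hP.pyth z
  rw [hs] at h1
  by_contra h
  push Not at h
  nlinarith [norm_nonneg p, norm_nonneg z, norm_nonneg (P z)]

/-- extension from slices of the ball -/
theorem ball_ext (g : Geo X κ) (hg : g.Ω = ball 0 1) : Ext0 g g.Ω g.Ω 1 := by
  intro Θ _ P p hS v M hM hv hvd hvb
  classical
  rw [hg] at hvd hvb ⊢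
  have hdom : ∀ z : X, ‖z‖ < 1 → z ∈ ball (0 : X) 1 := fun z hz => mem_ball_zero_iff.2 hz
  refine ⟨fun θ z => if ‖p θ‖ < 1 then v θ (RT (P θ) 1 (p θ) z) else 0, ?_, ?_, ?_, ?_⟩
  · have h1 : Measurable (fun q : Θ × X => p q.1) := hS.pm.comp measurable_fst
    have h2 : MeasurableSet {q : Θ × X | ‖p q.1‖ < 1} := measurableSet_lt h1.norm measurable_const
    refine Measurable.ite h2 ?_ measurable_const
    have h3 : Measurable (fun q : Θ × X => RT (P q.1) 1 (p q.1) q.2) := by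
      unfold RT
      have hi : Measurable (fun q : Θ × X => (inner ℂ (p q.1) q.2 : ℂ)) := h1.inner measurable_snd
      have hn : Measurable (fun q : Θ × X => ((‖p q.1‖ : ℝ) : ℂ)) :=
        Complex.measurable_ofReal.comp h1.norm
      exact h1.add (((measurable_const.sub (hn.pow_const 2)).div
        (measurable_const.sub hi)).smul hS.Pm)
    exact hv.comp (measurable_fst.prodMk h3)
  · intro θ z hz
    have hz1 := mem_ball_zero_iff.1 hz
    by_cases hθ : ‖p θ‖ < 1
    · simp only [hθ, if_true]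
      have h1 := RT_lt (hS.op θ) one_pos (hS.p0 θ) hθ hz1
      have h2 : ∀ y, RT (P θ) 1 (p θ) y = p θ + P θ (RT (P θ) 1 (p θ) y) := fun y =>
        sub_eq_iff_eq_add.1 (RT_slice (hS.op θ) (r := 1) (hS.p0 θ) y)
      have h3 : DifferentiableAt ℂ (fun x => v θ (p θ + P θ x)) (RT (P θ) 1 (p θ) z) := by
        refine (hvd θ).differentiableAt ?_
        refine (isOpen_ball.preimage (by fun_prop : Continuous fun x => p θ + P θ x)).mem_nhds ?_
        change p θ + P θ (RT (P θ) 1 (p θ) z) ∈ ball (0 : X) 1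
        rw [← h2]
        exact hdom _ h1
      have h4 : DifferentiableAt ℂ (fun z => v θ (p θ + P θ (RT (P θ) 1 (p θ) z))) z :=
        DifferentiableAt.comp (g := fun x => v θ (p θ + P θ x)) z h3 (RT_diff one_pos hθ hz1)
      refine (h4.congr_of_eventuallyEq ?_).differentiableWithinAt
      refine Eventually.of_forall (fun y => ?_)
      change v θ (RT (P θ) 1 (p θ) y) = v θ (p θ + P θ (RT (P θ) 1 (p θ) y))
      rw [← h2]
    · simp only [hθ, if_false]
      exact differentiableWithinAt_const _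
  · intro θ z hz
    rw [one_mul]
    by_cases hθ : ‖p θ‖ < 1
    · simp only [hθ, if_true]
      exact hvb θ _ (RT_slice (hS.op θ) (hS.p0 θ) z)
        (hdom _ (RT_lt (hS.op θ) one_pos (hS.p0 θ) hθ (mem_ball_zero_iff.1 hz)))
    · simp only [hθ, if_false, norm_zero]
      exact hM
  · intro θ z hs hz
    have hz1 := mem_ball_zero_iff.1 hz
    have hθ : ‖p θ‖ < 1 := foot_lt (hS.op θ) hz1 hs
    simp only [hθ, if_true]
    rw [RT_id (hS.op θ) one_pos (hS.p0 θ) hz1 hs]

/-- the geometry of the ball -/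
theorem ball_geo (ψ : κ → X → ℂ) (hψ : ∀ k, AF (ball (0 : X) 1) (ψ k)) (hm : ∀ k, Measurable (ψ k))
    {r : ℝ} (hr0 : 0 < r) (hr1 : r < 1) (hr : ∀ k, ∀ z ∈ ball (0 : X) 1, ‖ψ k z‖ < r) :
    ∃ g : Geo X κ, g.Ω = ball 0 1 ∧ g.ψ = ψ := by
  have hne : (ball (0 : X) 1).Nonempty := ⟨0, mem_ball_self one_pos⟩
  choose A b hA hb hfib using fun k => (hψ k).meas isOpen_ball hne
  have key : ∀ k (P : X →L[ℂ] X) (p : X), OP P → ∀ z ∈ ball (0 : X) 1, z - P z = p → ∀ ζ,
      P (A k ζ) = 0 → (inner ℂ (A k ζ) z : ℂ) = inner ℂ (A k ζ) p := by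
    intro k P p hP z hz hs ζ h0
    have h1 : z = p + P z := by rw [← hs, sub_add_cancel]
    rw [h1, inner_add_right, ← hP.symm, h0, inner_zero_left, add_zero]
  refine ⟨{ Ω := ball 0 1, ψ := ψ, r := r, A := A, b := b, Adm := fun _ => True
            cs := fun k P p => ‖p‖ < 1 ∧ P (A k (ψ k p)) = 0
            cv := fun k _ p => ψ k p
            op := isOpen_ball, r0 := hr0, r1 := hr1, ψd := fun k => (hψ k).diff, ψm := hm
            ψr := hr, Am := hA, bm := hb, fib := hfib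
            lp := fun k z hz c hc => (hψ k).lp isOpen_ball hz hc
            admP := fun _ _ _ _ _ => trivial, adm1 := trivial
            csm := ?_, cvm := ?_, cs1 := ?_, cs2 := ?_ }, rfl, rfl⟩
  · intro k Θ _ P p hP hp
    refine MeasurableSet.inter (measurableSet_lt hp.norm measurable_const) ?_
    have h1 : Measurable (fun θ => P θ (A k (ψ k (p θ)))) :=
      hP.comp (measurable_id.prodMk ((hA k).comp ((hm k).comp hp)))
    exact h1 (measurableSet_singleton (0 : X))
  · intro k Θ _ P p hP hp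
    exact (hm k).comp hp
  · intro k P p hP _ _ hcs z hz hs
    refine (hfib k z hz _).2 ?_
    rw [key k P p hP z hz hs _ hcs.2]
    exact (hfib k p (mem_ball_zero_iff.2 hcs.1) _).1 rfl
  · intro k P p hP _ _ hcs z hz hs h0
    apply hcs
    have hp : ‖p‖ < 1 := foot_lt hP (mem_ball_zero_iff.1 hz) hs
    have h1 : ψ k p = ψ k z := by
      refine (hfib k p (mem_ball_zero_iff.2 hp) _).2 ?_
      rw [← key k P p hP z hz hs _ h0]
      exact (hfib k z hz _).1 rfl
    exact ⟨hp, by rw [h1]; exact h0⟩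

end

/-- **Localisation theorem on the unit ball, for functions with affine fibres.** -/
theorem loc_aff (N K M : ℕ) {ε Q : ℝ} (hε : 0 < ε) (hQ : 0 ≤ Q) :
    ∃ C : ℝ, 0 ≤ C ∧ ∀ (X : Type) [NormedAddCommGroup X]
    [InnerProductSpace ℂ X] [FiniteDimensional ℂ X]
    (ψ : Fin K → X → ℂ) (f : Fin K → Fin N → ℂ → ℂ), (∀ k, AF (ball (0 : X) 1) (ψ k)) →
    (∀ k, ∀ z ∈ ball (0 : X) 1, ‖ψ k z‖ < 1) →
    (∀ k i, DifferentiableOn ℂ (f k i) (ball 0 1)) →
    (∀ k i, ∀ z ∈ ball (0 : ℂ) 1, ‖f k i z‖ ≤ 1) →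
    ∀ (G : Fin M → X → ℂ), (∀ j, DifferentiableOn ℂ (G j) (ball 0 1)) →
    (∀ j, ∀ z ∈ ball (0 : X) 1, ‖G j z‖ ≤ 1) →
    Bez {z : X | ‖z‖ < 1 ∧ ∀ k i, ‖f k i (ψ k z)‖ < ε} G Q →
    Bez (ball 0 1) (Sum.elim (fun (q : Fin K × Fin N) z => f q.1 q.2 (ψ q.1 z)) G) C := by
  obtain ⟨C, hC, H⟩ := loc_ind N K M zero_le_one K (min ε 1) Q (lt_min hε one_pos)
    (min_le_right _ _) hQ
  refine ⟨C, hC, ?_⟩
  intro X _ _ _ ψ f hψ hψ1 hf hfb G hG hGb hbez
  classical
  let _ : MeasurableSpace X := borel X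
  have _ : BorelSpace X := ⟨rfl⟩
  -- measurable modifications
  set f' : Fin K → Fin N → ℂ → ℂ := fun k i => (ball (0 : ℂ) 1).indicator (f k i) with hf'
  have hfeq : ∀ k i, ∀ z ∈ ball (0 : ℂ) 1, f' k i z = f k i z := fun k i z hz =>
    indicator_of_mem hz _
  have hFD : FD f' := by
    refine ⟨fun k i => (hf k i).congr (hfeq k i), fun k i z hz => ?_, fun k i => ?_⟩
    · rw [hfeq k i z hz]
      exact hfb k i z hz
    · rw [hf']
      beta_reduce
      rw [← Set.piecewise_eq_indicator]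
      exact ContinuousOn.measurable_piecewise (hf k i).continuousOn continuousOn_const
        isOpen_ball.measurableSet
  have hsol : ∀ ρ : ℝ, 0 < ρ → ρ < 1 → Bez (ball 0 ρ)
      (Sum.elim (fun (q : Fin K × Fin N) z => f q.1 q.2 (ψ q.1 z)) G) C := by
    intro ρ hρ0 hρ1
    have hρn : ‖(ρ : ℂ)‖ = ρ := by rw [Complex.norm_real, Real.norm_of_nonneg hρ0.le]
    have hρne : (ρ : ℂ) ≠ 0 := by exact_mod_cast hρ0.ne'
    have hsc : ∀ z : X, ‖z‖ < 1 → ‖(ρ : ℂ) • z‖ < ρ := by
      intro z hz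
      rw [norm_smul, hρn]
      calc ρ * ‖z‖ < ρ * 1 := by gcongr
        _ = ρ := mul_one ρ
    have hsc1 : ∀ z ∈ ball (0 : X) 1, (ρ : ℂ) • z ∈ ball (0 : X) 1 := fun z hz =>
      mem_ball_zero_iff.2 ((hsc z (mem_ball_zero_iff.1 hz)).trans hρ1)
    have hsd : Differentiable ℂ (fun z : X => (ρ : ℂ) • z) := by fun_prop
    -- the dilated functions
    set φ : Fin K → X → ℂ := fun k => (ball (0 : X) 1).indicator (fun z => ψ k ((ρ : ℂ) • z))
      with hφ
    have hφeq : ∀ k, ∀ z ∈ ball (0 : X) 1, φ k z = ψ k ((ρ : ℂ) • z) := fun k z hz =>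
      indicator_of_mem hz _
    have hψd : ∀ k, DifferentiableOn ℂ (fun z => ψ k ((ρ : ℂ) • z)) (ball 0 1) := fun k =>
      (hψ k).diff.comp hsd.differentiableOn hsc1
    have hφAF : ∀ k, AF (ball (0 : X) 1) (φ k) := by
      intro k
      refine ⟨(hψd k).congr (hφeq k), fun z hz z' hz' => ?_⟩
      have h1 : fderiv ℂ (φ k) z = (ρ : ℂ) • fderiv ℂ (ψ k) ((ρ : ℂ) • z) := by
        have h2 : φ k =ᶠ[𝓝 z] fun z => ψ k ((ρ : ℂ) • z) := by
          filter_upwards [isOpen_ball.mem_nhds hz] with y hy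
          exact hφeq k y hy
        rw [h2.fderiv_eq]
        have h3 : HasFDerivAt (ψ k) (fderiv ℂ (ψ k) ((ρ : ℂ) • z)) ((ρ : ℂ) • z) :=
          ((hψ k).diff.differentiableAt (isOpen_ball.mem_nhds (hsc1 z hz))).hasFDerivAt
        have h4 : HasFDerivAt (fun z : X => (ρ : ℂ) • z)
            ((ρ : ℂ) • ContinuousLinearMap.id ℂ X) z := (hasFDerivAt_id z).const_smul (ρ : ℂ)
        have h5 : HasFDerivAt (fun z : X => ψ k ((ρ : ℂ) • z))
            ((fderiv ℂ (ψ k) ((ρ : ℂ) • z)).comp ((ρ : ℂ) • ContinuousLinearMap.id ℂ X)) z :=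
          HasFDerivAt.comp (g := ψ k) z h3 h4
        rw [h5.fderiv]
        ext v
        simp
      rw [hφeq k z hz, hφeq k z' hz', (hψ k).fib _ (hsc1 z hz) _ (hsc1 z' hz'), h1, ← smul_sub,
        map_smul]
      simp
    have hφm : ∀ k, Measurable (φ k) := by
      intro k
      rw [hφ]
      beta_reduce
      rw [← Set.piecewise_eq_indicator]
      exact ContinuousOn.measurable_piecewise (hψd k).continuousOn continuousOn_const
        isOpen_ball.measurableSet
    -- a uniform bound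
    have hbd : ∀ k, ∃ s : ℝ, s < 1 ∧ ∀ z ∈ ball (0 : X) 1, ‖φ k z‖ ≤ s := by
      intro k
      have hK : IsCompact (closedBall (0 : X) ρ) := isCompact_closedBall 0 ρ
      have hcont : ContinuousOn (fun z => ‖ψ k z‖) (closedBall (0 : X) ρ) :=
        ((hψ k).diff.continuousOn.mono (closedBall_subset_ball hρ1)).norm
      obtain ⟨z0, hz0, hmax⟩ := hK.exists_isMaxOn ⟨0, mem_closedBall_self hρ0.le⟩ hcont
      refine ⟨‖ψ k z0‖, hψ1 k z0 (closedBall_subset_ball hρ1 hz0), fun z hz => ?_⟩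
      rw [hφeq k z hz]
      refine hmax ?_
      rw [mem_closedBall_zero_iff]
      exact (hsc z (mem_ball_zero_iff.1 hz)).le
    choose s hs1 hs2 using hbd
    obtain ⟨r, hr0, hr1, hrs⟩ : ∃ r : ℝ, 0 < r ∧ r < 1 ∧ ∀ k, s k < r := by
      have h1 : ∀ᶠ r in 𝓝[<] (1 : ℝ), ∀ k, s k < r := by
        rw [eventually_all]
        intro k
        exact mem_nhdsWithin_of_mem_nhds (lt_mem_nhds (hs1 k))
      have h2 : ∀ᶠ r in 𝓝[<] (1 : ℝ), 0 < r :=
        mem_nhdsWithin_of_mem_nhds (lt_mem_nhds one_pos)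
      have h3 : ∀ᶠ r in 𝓝[<] (1 : ℝ), r < 1 := self_mem_nhdsWithin
      obtain ⟨r, h4, h5, h6⟩ := (h1.and (h2.and h3)).exists
      exact ⟨r, h5, h6, h4⟩
    obtain ⟨g, hgΩ, hgψ⟩ := ball_geo φ hφAF hφm hr0 hr1
      (fun k z hz => lt_of_le_of_lt (hs2 k z hz) (hrs k))
    have hmemf : ∀ k, ∀ z ∈ ball (0 : X) 1, ψ k ((ρ : ℂ) • z) ∈ ball (0 : ℂ) 1 := fun k z hz =>
      mem_ball_zero_iff.2 (hψ1 k _ (hsc1 z hz))
    have h1 := H X g f' hFD (ball_ext g hgΩ) Finset.univ (by simp) (fun j z => G j ((ρ : ℂ) • z))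
      (by
        intro j
        rw [hgΩ]
        exact (hG j).comp hsd.differentiableOn hsc1)
      (by
        intro j z hz
        rw [hgΩ] at hz
        exact hGb j _ (hsc1 z hz)) (by
        obtain ⟨h, g1, g2, g3⟩ := hbez
        have hs' : MapsTo (fun z : X => (ρ : ℂ) • z) (Dom g f' Finset.univ (min ε 1))
            {z : X | ‖z‖ < 1 ∧ ∀ k i, ‖f k i (ψ k z)‖ < ε} := by
          rintro z ⟨hz1, hz2⟩
          rw [hgΩ] at hz1
          refine ⟨mem_ball_zero_iff.1 (hsc1 z hz1), fun k i => ?_⟩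
          have h4 := hz2 k (Finset.mem_univ k) i
          rw [hgψ, hφeq k z hz1, hfeq k i _ (hmemf k z hz1)] at h4
          exact lt_of_lt_of_le h4 (min_le_left _ _)
        refine ⟨Sum.elim (fun _ _ => 0) (fun j z => h j ((ρ : ℂ) • z)), ?_, ?_, ?_⟩
        · rintro (q | j)
          · exact differentiableOn_const _
          · exact (g1 j).comp hsd.differentiableOn hs'
        · rintro (q | j) z hz
          · simpa using hQ
          · exact g2 j _ (hs' hz)
        · intro z hz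
          rw [Fintype.sum_sum_type]
          simp only [Sum.elim_inl, Sum.elim_inr, mul_zero, Finset.sum_const_zero, zero_add, TI]
          exact g3 _ (hs' hz))
    obtain ⟨h, g1, g2, g3⟩ := h1
    rw [hgΩ] at g1 g2 g3
    have hinv : ∀ z ∈ ball (0 : X) ρ, (ρ : ℂ)⁻¹ • z ∈ ball (0 : X) 1 := by
      intro z hz
      rw [mem_ball_zero_iff] at hz ⊢
      rw [norm_smul, norm_inv, hρn, inv_mul_lt_iff₀ hρ0, mul_one]
      exact hz
    have hback : ∀ z : X, (ρ : ℂ) • ((ρ : ℂ)⁻¹ • z) = z := fun z => by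
      rw [smul_smul, mul_inv_cancel₀ hρne, one_smul]
    have hid : Differentiable ℂ (fun z : X => (ρ : ℂ)⁻¹ • z) := by fun_prop
    refine ⟨fun q z => h q ((ρ : ℂ)⁻¹ • z), fun q => (g1 q).comp hid.differentiableOn hinv,
      fun q z hz => g2 q _ (hinv z hz), fun z hz => ?_⟩
    rw [← g3 _ (hinv z hz)]
    refine Finset.sum_congr rfl (fun q _ => ?_)
    rcases q with q | j
    · simp only [TI, Sum.elim_inl, Finset.notMem_empty, if_false]
      rw [hgψ, hφeq q.1 _ (hinv z hz), hback]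
      have h5 := hmemf q.1 _ (hinv z hz)
      rw [hback] at h5
      rw [hfeq q.1 q.2 _ h5]
    · simp only [TI, Sum.elim_inr]
      rw [hback]
  -- exhaustion
  set ρ : ℕ → ℝ := fun m => 1 - 1 / ((m : ℝ) + 2) with hρ
  have hρ0 : ∀ m, 0 < ρ m := by
    intro m
    have : (0 : ℝ) ≤ m := Nat.cast_nonneg m
    rw [hρ]
    beta_reduce
    rw [sub_pos, div_lt_one (by linarith)]
    linarith
  have hρ1 : ∀ m, ρ m < 1 := by
    intro m
    have : (0 : ℝ) ≤ m := Nat.cast_nonneg m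
    rw [hρ]
    beta_reduce
    have : 0 < 1 / ((m : ℝ) + 2) := by positivity
    linarith
  have hρt : Tendsto ρ atTop (𝓝 1) := by
    have h1 : Tendsto ρ atTop (𝓝 (1 - 0)) := by
      refine tendsto_const_nhds.sub ?_
      have h2 := (tendsto_one_div_add_atTop_nhds_zero_nat (𝕜 := ℝ))
      have h3 := h2.comp (tendsto_add_atTop_nat 1)
      refine h3.congr (fun m => ?_)
      simp only [Function.comp_apply]
      push_cast
      ring
    rwa [sub_zero] at h1
  have hρm : Monotone ρ := by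
    intro m n hmn
    have : (0 : ℝ) ≤ m := Nat.cast_nonneg m
    have h2 : (m : ℝ) ≤ n := by exact_mod_cast hmn
    simp only [hρ]
    gcongr
  obtain ⟨h, g1, g2, g3⟩ := exhaust3 (C := C) (fun m => ball (0 : X) (ρ m))
    (fun m => isOpen_ball) (fun m n hmn => ball_subset_ball (hρm hmn))
    (Sum.elim (fun (q : Fin K × Fin N) z => f q.1 q.2 (ψ q.1 z)) G)
    (fun m => hsol (ρ m) (hρ0 m) (hρ1 m))
  have hU : (⋃ m, ball (0 : X) (ρ m)) = ball 0 1 := by
    ext z
    rw [mem_iUnion]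
    constructor
    · rintro ⟨m, hm⟩
      exact ball_subset_ball (hρ1 m).le hm
    · intro hz
      obtain ⟨m, hm⟩ := (hρt.eventually (lt_mem_nhds (mem_ball_zero_iff.1 hz))).exists
      exact ⟨m, mem_ball_zero_iff.2 hm⟩
  rw [hU] at g1 g2 g3
  exact ⟨h, g1, g2, g3⟩

end Pool.Agent.Y263.GF
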