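import Mathlib
import Pool.Agent.Y263.GF.Ball
import Pool.Agent.Y263.LF.LocAlg

/-!
The closed algebra generated by the functions with affine fibres and one arbitrary function.
-/

set_option autoImplicit false
set_option linter.unusedSectionVars false

open MeasureTheory Metric Set Filter Topology Complex
open scoped ContDiff

namespace Pool.Agent.Y263.GF

open Pool.Agent.Y263.LF (Bez Bez.mono Hb evH Tup CA SR linH linH_apply alg_ct local_main)

/-- holomorphic maps from the unit ball to the unit disc with affine fibres -/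
def AD {X : Type} [NormedAddCommGroup X] [InnerProductSpace ℂ X] (ψ : X → ℂ) : Prop :=
  AF (ball (0 : X) 1) ψ ∧ ∀ z ∈ ball (0 : X) 1, ‖ψ z‖ < 1

theorem ddiv {X : Type} [NormedAddCommGroup X] [NormedSpace ℂ X] {f : X → ℂ} {s : Set X}
    (h : DifferentiableOn ℂ f s) (c : ℂ) : DifferentiableOn ℂ (fun z => f z / c) s := by
  simp only [div_eq_mul_inv]
  exact h.mul_const _

/-- linear fractional maps have affine fibres -/
theorem frac_AF {X : Type} [NormedAddCommGroup X] [InnerProductSpace ℂ X] (α β : X →L[ℂ] ℂ)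
    (a b : ℂ) (hne : ∀ z ∈ ball (0 : X) 1, β z + b ≠ 0) :
    AF (ball (0 : X) 1) (fun z => (α z + a) / (β z + b)) := by
  have hder : ∀ z ∈ ball (0 : X) 1, ∀ v, fderiv ℂ (fun z => (α z + a) / (β z + b)) z v =
      (α v * (β z + b) - (α z + a) * β v) / (β z + b) ^ 2 := by
    intro z hz v
    have h1 : HasFDerivAt (fun z => α z + a) α z := α.hasFDerivAt.add_const a
    have h2 : HasFDerivAt (fun z => β z + b) β z := β.hasFDerivAt.add_const b
    have h3 : HasFDerivAt (fun z => (β z + b)⁻¹) (-((β z + b) ^ 2)⁻¹ • β) z := by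
      have h4 := (hasDerivAt_inv (hne z hz)).comp_hasFDerivAt z h2
      exact h4
    have h5 := h1.mul h3
    have h6 : (fun z => (α z + a) / (β z + b)) = fun z => (α z + a) * (β z + b)⁻¹ := by
      funext z
      rw [div_eq_mul_inv]
    rw [h6]
    have h7 : HasFDerivAt (fun z => (α z + a) * (β z + b)⁻¹)
        ((α z + a) • (-((β z + b) ^ 2)⁻¹ • β) + (β z + b)⁻¹ • α) z := h5
    rw [h7.fderiv]
    simp only [add_apply, smul_apply, smul_eq_mul]
    have := hne z hz
    field_simp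
    ring
  refine ⟨?_, fun z hz z' hz' => ?_⟩
  · intro z hz
    have h1 : DifferentiableAt ℂ (fun z => α z + a) z := by fun_prop
    have h2 : DifferentiableAt ℂ (fun z => β z + b) z := by fun_prop
    have h3 : DifferentiableAt ℂ (fun z => (α z + a) * (β z + b)⁻¹) z :=
      h1.fun_mul (h2.fun_inv (hne z hz))
    simp only [div_eq_mul_inv]
    exact h3.differentiableWithinAt
  · rw [hder z hz]
    have h1 := hne z hz
    have h2 := hne z' hz'
    rw [div_eq_div_iff h2 h1, div_eq_zero_iff]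
    simp only [map_sub]
    constructor
    · intro h
      left
      linear_combination h
    · rintro (h | h)
      · linear_combination h
      · exact absurd h (pow_ne_zero 2 h1)

/-- **Corona theorem for tuples.** -/
theorem tuple_cor (K : ℕ) {δ R : ℝ} (hδ : 0 < δ) (hR : 0 < R) : ∃ C : ℝ, 0 ≤ C ∧
    ∀ (X : Type) [NormedAddCommGroup X] [InnerProductSpace ℂ X] [FiniteDimensional ℂ X]
    (ψ : Fin K → X → ℂ) (f : Fin K → ℂ → ℂ), (∀ k, AD (ψ k)) →
    (∀ k, DifferentiableOn ℂ (f k) (ball 0 1)) → (∀ k, ∀ z ∈ ball (0 : ℂ) 1, ‖f k z‖ ≤ R) →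
    ∀ (G : X → ℂ), DifferentiableOn ℂ G (ball 0 1) → (∀ z ∈ ball (0 : X) 1, ‖G z‖ ≤ R) →
    (∀ z ∈ ball (0 : X) 1, δ ≤ ∑ k, ‖f k (ψ k z)‖ + ‖G z‖) →
    ∃ (g : Fin K → X → ℂ) (g0 : X → ℂ), (∀ k, DifferentiableOn ℂ (g k) (ball 0 1)) ∧
      DifferentiableOn ℂ g0 (ball 0 1) ∧ (∀ k, ∀ z ∈ ball (0 : X) 1, ‖g k z‖ ≤ C) ∧
      (∀ z ∈ ball (0 : X) 1, ‖g0 z‖ ≤ C) ∧
      ∀ z ∈ ball (0 : X) 1, ∑ k, f k (ψ k z) * g k z + G z * g0 z = 1 := by
  have hK : (0 : ℝ) < K + 1 := by positivity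
  set ε : ℝ := δ / (2 * R * (K + 1)) with hε
  have hε0 : 0 < ε := by positivity
  obtain ⟨C, hC, H⟩ := loc_aff 1 K 1 (ε := ε) (Q := 2 * R / δ) hε0 (by positivity)
  refine ⟨C / R, by positivity, ?_⟩
  intro X _ _ _ ψ f hψ hf hfb G hG hGb hlow
  have hRc : (R : ℂ) ≠ 0 := by exact_mod_cast hR.ne'
  have hRn : ‖(R : ℂ)‖ = R := by rw [Complex.norm_real, Real.norm_of_nonneg hR.le]
  have hGlow : ∀ z : X, ‖z‖ < 1 → (∀ k : Fin K, ∀ _i : Fin 1, ‖f k (ψ k z) / R‖ < ε) →
      δ / 2 ≤ ‖G z‖ := by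
    intro z hz hi
    have h1 := hlow z (mem_ball_zero_iff.2 hz)
    have h2 : ∑ k, ‖f k (ψ k z)‖ ≤ K * (R * ε) := by
      have h3 : ∀ k ∈ (Finset.univ : Finset (Fin K)), ‖f k (ψ k z)‖ ≤ R * ε := by
        intro k _
        have h4 := hi k 0
        rw [norm_div, hRn, div_lt_iff₀ hR] at h4
        linarith
      refine (Finset.sum_le_sum h3).trans (le_of_eq ?_)
      rw [Finset.sum_const, Finset.card_univ, Fintype.card_fin, nsmul_eq_mul]
    have h3 : (K : ℝ) * (R * ε) ≤ δ / 2 := by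
      rw [hε]
      have h4 : (K : ℝ) * (R * (δ / (2 * R * (K + 1)))) = (K / (K + 1)) * (δ / 2) := by
        field_simp
      rw [h4]
      have h5 : (K : ℝ) / (K + 1) ≤ 1 := by
        rw [div_le_one hK]
        linarith
      calc (K : ℝ) / (K + 1) * (δ / 2) ≤ 1 * (δ / 2) := by gcongr
        _ = δ / 2 := one_mul _
    linarith
  obtain ⟨h, h1, h2, h3⟩ := H X ψ (fun k _ z => f k z / R) (fun k => (hψ k).1) (fun k => (hψ k).2)
    (fun k _ => (hf k).div_const _)
    (fun k _ z hz => by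
      rw [norm_div, hRn, div_le_one hR]
      exact hfb k z hz)
    (fun _ z => G z / R) (fun _ => ddiv hG _)
    (fun _ z hz => by
      rw [norm_div, hRn, div_le_one hR]
      exact hGb z hz)
    (by
      refine ⟨fun _ z => (G z / R)⁻¹, fun _ => ?_, fun _ z hz => ?_, fun z hz => ?_⟩
      · have h4 : DifferentiableOn ℂ (fun z => G z / R)
            {z : X | ‖z‖ < 1 ∧ ∀ k : Fin K, ∀ _i : Fin 1, ‖f k (ψ k z) / R‖ < ε} :=
          (ddiv hG _).mono (fun z hz => mem_ball_zero_iff.2 hz.1)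
        refine h4.fun_inv (fun z hz h0 => ?_)
        have h5 := hGlow z hz.1 hz.2
        rw [div_eq_zero_iff] at h0
        rcases h0 with h0 | h0
        · rw [h0, norm_zero] at h5
          linarith
        · exact hRc h0
      · have h5 := hGlow z hz.1 hz.2
        rw [norm_inv, norm_div, hRn, show 2 * R / δ = (δ / 2 / R)⁻¹ by
          rw [inv_div]; field_simp]
        exact inv_anti₀ (by positivity) (by gcongr)
      · have h5 := hGlow z hz.1 hz.2
        have h6 : G z ≠ 0 := by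
          intro h0
          rw [h0, norm_zero] at h5
          linarith
        simp only [Finset.univ_unique, Finset.sum_singleton]
        exact mul_inv_cancel₀ (div_ne_zero h6 hRc))
  refine ⟨fun k z => h (Sum.inl (k, 0)) z / R, fun z => h (Sum.inr 0) z / R,
    fun k => ddiv (h1 _) _, ddiv (h1 _) _, fun k z hz => ?_, fun z hz => ?_,
    fun z hz => ?_⟩
  · rw [norm_div, hRn]
    have := h2 (Sum.inl (k, 0)) z hz
    gcongr
  · rw [norm_div, hRn]
    have := h2 (Sum.inr 0) z hz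
    gcongr
  · have h4 := h3 z hz
    rw [Fintype.sum_sum_type, Fintype.sum_prod_type] at h4
    simp only [Sum.elim_inl, Sum.elim_inr, Finset.univ_unique, Finset.sum_singleton,
      Fin.default_eq_zero] at h4
    rw [← h4]
    congr 1
    · refine Finset.sum_congr rfl (fun k _ => ?_)
      field_simp
    · field_simp

/-- the functions `f ∘ ψ`, `f` bounded holomorphic on the disc, `ψ` with affine fibres -/
def SF (X : Type) [NormedAddCommGroup X] [InnerProductSpace ℂ X] : Set (X → ℂ) :=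
  {h | ∃ (f : ℂ → ℂ) (ψ : X → ℂ), DifferentiableOn ℂ f (ball 0 1) ∧
    (∃ C : ℝ, ∀ z ∈ ball (0 : ℂ) 1, ‖f z‖ ≤ C) ∧ AD ψ ∧ ∀ z ∈ ball (0 : X) 1, h z = f (ψ z)}

theorem tup_SF {X : Type} [NormedAddCommGroup X] [InnerProductSpace ℂ X] [FiniteDimensional ℂ X] :
    Tup (SF X) := by
  intro K h hh c G' hG' hGb δ' hδ' hlow'
  choose f ψ hf hfb hψ hfψ using hh
  choose Cf hCf using hfb
  obtain ⟨CG, hCG⟩ := hGb
  set R : ℝ := |CG| + ∑ j, (|Cf j| + ‖c j‖) + 1 with hR
  have hsn : 0 ≤ ∑ j, (|Cf j| + ‖c j‖) := Finset.sum_nonneg (fun _ _ => by positivity)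
  have hR0 : 0 < R := by
    have := abs_nonneg CG
    linarith
  obtain ⟨C, hC, H⟩ := tuple_cor K hδ' hR0
  obtain ⟨g, g0, g1, g2, g3, g4, g5⟩ := H X ψ (fun k z => f k z - c k) hψ
    (fun k => (hf k).sub_const _)
    (fun k z hz => by
      refine (norm_sub_le _ _).trans ?_
      have h1 := hCf k z hz
      have h2 := Finset.single_le_sum (f := fun j => |Cf j| + ‖c j‖)
        (fun _ _ => by positivity) (Finset.mem_univ k)
      have h3 := le_abs_self (Cf k)
      have h4 := abs_nonneg CG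
      linarith) G' hG'
    (fun z hz => by
      have h1 := hCG z hz
      have h2 := le_abs_self CG
      linarith)
    (fun z hz => by
      have h1 := hlow' z hz
      simp only [fun j => hfψ j z hz] at h1
      exact h1)
  refine ⟨g, g0, C, g1, g2, g3, g4, fun z hz => ?_⟩
  have h1 := g5 z hz
  simp only [fun j => hfψ j z hz]
  exact h1

theorem lin_SF {X : Type} [NormedAddCommGroup X] [InnerProductSpace ℂ X] [FiniteDimensional ℂ X]
    (u : X) (G : Hb X) : linH u ∈ CA (SF X) G := by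
  refine Subalgebra.le_topologicalClosure _ (Algebra.subset_adjoin (mem_insert_of_mem _ ?_))
  have h1 : (0 : ℝ) < 1 + ‖u‖ := by positivity
  have h1c : ((1 + ‖u‖ : ℝ) : ℂ) ≠ 0 := by exact_mod_cast h1.ne'
  have hn : ‖((1 + ‖u‖ : ℝ) : ℂ)⁻¹‖ = (1 + ‖u‖)⁻¹ := by
    rw [norm_inv, Complex.norm_real, Real.norm_of_nonneg h1.le]
  set α : X →L[ℂ] ℂ := (((1 + ‖u‖ : ℝ) : ℂ)⁻¹) • innerSL ℂ u with hα
  have hαz : ∀ z, α z = ((1 + ‖u‖ : ℝ) : ℂ)⁻¹ * inner ℂ u z := fun z => by simp [hα]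
  refine ⟨fun z => inner ℂ u z, ⟨fun w => ((1 + ‖u‖ : ℝ) : ℂ) * w,
    fun z => (α z + 0) / ((0 : X →L[ℂ] ℂ) z + 1), by fun_prop, ⟨‖((1 + ‖u‖ : ℝ) : ℂ)‖, fun w hw => ?_⟩,
    ⟨frac_AF α 0 0 1 (by simp), fun z hz => ?_⟩, fun z hz => ?_⟩, fun z => rfl⟩
  · rw [norm_mul]
    have := (mem_ball_zero_iff.1 hw).le
    calc _ ≤ ‖((1 + ‖u‖ : ℝ) : ℂ)‖ * 1 := by gcongr
      _ = _ := mul_one _
  · have h2 := norm_inner_le_norm (𝕜 := ℂ) u z
    have h3 := mem_ball_zero_iff.1 hz
    simp only [add_zero, zero_apply, zero_add, div_one]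
    rw [hαz, norm_mul, hn, inv_mul_lt_iff₀ h1, mul_one]
    have h4 : ‖u‖ * ‖z‖ ≤ ‖u‖ * 1 := by gcongr
    linarith
  · simp only [add_zero, zero_apply, zero_add, div_one]
    rw [hαz, mul_inv_cancel_left₀ h1c]

end Pool.Agent.Y263.GF
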