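import Mathlib
import Pool.Agent.Y263.GF.Alg

/-!
The local corona theorem in terms of functions instead of elements of the algebra.
-/

set_option autoImplicit false
set_option linter.unusedSectionVars false

open Metric Set Filter Topology

namespace Pool.Agent.Y263.GF

open Pool.Agent.Y263.LF (Hb evH evH_le mkH mkH_apply Hb_ext SR CA Tup linH local_main)

variable {X : Type} [NormedAddCommGroup X] [InnerProductSpace ℂ X] [FiniteDimensional ℂ X]

/-- bounded holomorphic functions on the ball -/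
def BH (X : Type) [NormedAddCommGroup X] [InnerProductSpace ℂ X] : Set (X → ℂ) :=
  {f | DifferentiableOn ℂ f (ball 0 1) ∧ ∃ C : ℝ, ∀ z ∈ ball (0 : X) 1, ‖f z‖ ≤ C}

theorem BH_mk {f : X → ℂ} (hf : f ∈ BH X) : ∃ a : Hb X, ∀ z, evH z a = f z := by
  obtain ⟨h1, C, h2⟩ := hf
  exact ⟨mkH f h1 C h2, fun z => mkH_apply f h1 C h2 z⟩

theorem adj_mem {𝓡 : Set (X → ℂ)} (h𝓡 : 𝓡 ⊆ BH X) {G : Hb X} {G' : X → ℂ}
    (hG : ∀ z, evH z G = G' z) {b : X → ℂ} (hb : b ∈ Algebra.adjoin ℂ (insert G' 𝓡)) :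
    ∃ b' ∈ Algebra.adjoin ℂ (insert G (SR 𝓡)), ∀ z, evH z b' = b z := by
  induction hb using Algebra.adjoin_induction with
  | mem x hx =>
    rcases hx with rfl | hx
    · exact ⟨G, Algebra.subset_adjoin (mem_insert _ _), hG⟩
    · obtain ⟨a, ha⟩ := BH_mk (h𝓡 hx)
      exact ⟨a, Algebra.subset_adjoin (mem_insert_of_mem _ ⟨x, hx, ha⟩), ha⟩
  | algebraMap r =>
    exact ⟨algebraMap ℂ (Hb X) r, Subalgebra.algebraMap_mem _ r, fun z => rfl⟩
  | add x y _ _ hx hy =>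
    obtain ⟨a, ha, ha'⟩ := hx
    obtain ⟨c, hc, hc'⟩ := hy
    exact ⟨a + c, Subalgebra.add_mem _ ha hc, fun z => by rw [map_add, ha', hc']; rfl⟩
  | mul x y _ _ hx hy =>
    obtain ⟨a, ha, ha'⟩ := hx
    obtain ⟨c, hc, hc'⟩ := hy
    exact ⟨a * c, Subalgebra.mul_mem _ ha hc, fun z => by rw [map_mul, ha', hc']; rfl⟩

theorem alg_mem {𝓡 : Set (X → ℂ)} (h𝓡 : 𝓡 ⊆ BH X) {G : Hb X} {G' : X → ℂ}
    (hG : ∀ z, evH z G = G' z) {a : X → ℂ}
    (ha : ∀ ε : ℝ, 0 < ε → ∃ b ∈ Algebra.adjoin ℂ (insert G' 𝓡), ∀ z ∈ ball (0 : X) 1,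
      ‖a z - b z‖ ≤ ε) : ∃ a' ∈ CA 𝓡 G, ∀ z, evH z a' = a z := by
  have h1 : ∀ n : ℕ, ∃ b' ∈ Algebra.adjoin ℂ (insert G (SR 𝓡)), ∀ z : ball (0 : X) 1,
      ‖a z - evH z b'‖ ≤ 1 / ((n : ℝ) + 1) := by
    intro n
    obtain ⟨b, hb, hb2⟩ := ha (1 / ((n : ℝ) + 1)) (by positivity)
    obtain ⟨b', hb', hb3⟩ := adj_mem h𝓡 hG hb
    exact ⟨b', hb', fun z => by rw [hb3]; exact hb2 z z.2⟩
  choose b hb hb2 using h1
  have hd : ∀ n m : ℕ, n ≤ m → dist (b n) (b m) ≤ 2 * (1 / ((n : ℝ) + 1)) := by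
    intro n m hnm
    rw [dist_eq_norm]
    change ‖((b n : Hb X) : BoundedContinuousFunction (ball (0 : X) 1) ℂ) -
      ((b m : Hb X) : BoundedContinuousFunction (ball (0 : X) 1) ℂ)‖ ≤ _
    rw [BoundedContinuousFunction.norm_le (by positivity)]
    intro z
    have h2 := hb2 n z
    have h3 := hb2 m z
    have h4 : 1 / ((m : ℝ) + 1) ≤ 1 / ((n : ℝ) + 1) := by
      apply one_div_le_one_div_of_le (by positivity)
      have : (n : ℝ) ≤ m := by exact_mod_cast hnm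
      linarith
    have h5 : evH z (b n) - evH z (b m) = -(a z - evH z (b n)) + (a z - evH z (b m)) := by ring
    change ‖evH z (b n) - evH z (b m)‖ ≤ _
    rw [h5]
    refine (norm_add_le _ _).trans ?_
    rw [norm_neg]
    linarith
  have hc : CauchySeq b := by
    refine cauchySeq_of_le_tendsto_0' (fun n => 2 * (1 / ((n : ℝ) + 1))) hd ?_
    have := tendsto_one_div_add_atTop_nhds_zero_nat (𝕜 := ℝ)
    simpa using this.const_mul 2
  obtain ⟨a', ha'⟩ := cauchySeq_tendsto_of_complete hc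
  refine ⟨a', ?_, fun z => ?_⟩
  · have h2 : a' ∈ closure ((Algebra.adjoin ℂ (insert G (SR 𝓡)) : Subalgebra ℂ (Hb X)) :
        Set (Hb X)) := mem_closure_of_tendsto ha' (Eventually.of_forall hb)
    exact h2
  · have h2 : Tendsto (fun n => evH z (b n)) atTop (𝓝 (evH z a')) := by
      rw [tendsto_iff_norm_sub_tendsto_zero]
      rw [tendsto_iff_dist_tendsto_zero] at ha'
      refine squeeze_zero (fun n => norm_nonneg _) (fun n => ?_) ha'
      rw [← map_sub, dist_eq_norm]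
      exact evH_le z _
    have h3 : Tendsto (fun n => evH z (b n)) atTop (𝓝 (a z)) := by
      rw [tendsto_iff_norm_sub_tendsto_zero]
      refine squeeze_zero (fun n => norm_nonneg _) (fun n => ?_)
        (tendsto_one_div_add_atTop_nhds_zero_nat (𝕜 := ℝ))
      rw [norm_sub_rev]
      exact hb2 n z
    exact tendsto_nhds_unique h2 h3

theorem SF_sub : SF X ⊆ BH X := by
  rintro h ⟨f, ψ, hf, ⟨C, hC⟩, hψ, he⟩
  have hmaps : MapsTo ψ (ball 0 1) (ball 0 1) := fun z hz => by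
    rw [mem_ball_zero_iff]; exact hψ.2 z hz
  refine ⟨(hf.comp hψ.1.diff hmaps).congr he, C, fun z hz => ?_⟩
  rw [he z hz]
  exact hC _ (hmaps hz)

/-- **Local corona theorem** for functions. -/
theorem local_plain {N : ℕ} (F : Fin N → X → ℂ) (hF : ∀ j, F j ∈ BH X)
    (h0 : ∀ z ∈ ball (0 : X) 1, ∃ j, F j z ≠ 0)
    (hp : ∀ p : X, ‖p‖ = 1 → ∃ G ∈ BH X, ∃ (S : Finset (Fin N)) (a : Fin N → X → ℂ) (c : ℝ),
      0 < c ∧ (∀ᶠ z in 𝓝[ball 0 1] p, c ≤ ∑ j ∈ S, ‖F j z‖) ∧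
      ∀ j ∈ S, (∀ ε : ℝ, 0 < ε → ∃ b ∈ Algebra.adjoin ℂ (insert G (SF X)),
          ∀ z ∈ ball (0 : X) 1, ‖a j z - b z‖ ≤ ε) ∧
        Tendsto (fun z => F j z - a j z) (𝓝[ball 0 1] p) (𝓝 0)) :
    ∃ g : Fin N → X → ℂ, (∀ j, g j ∈ BH X) ∧ ∀ z ∈ ball (0 : X) 1, ∑ j, F j z * g j z = 1 := by
  classical
  choose F' hF' using fun j => BH_mk (hF j)
  have hnear : ∀ p : X, comap (Subtype.val : ball (0 : X) 1 → X) (𝓝 p) =
      comap (Subtype.val : ball (0 : X) 1 → X) (𝓝[ball 0 1] p) := by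
    intro p
    rw [nhdsWithin, comap_inf, comap_principal]
    simp
  obtain ⟨g, hg⟩ := local_main tup_SF (fun u G => lin_SF u G) F'
    (fun z => by
      obtain ⟨j, hj⟩ := h0 z z.2
      exact ⟨j, by rwa [hF']⟩)
    (fun p hp1 => by
      obtain ⟨G, hG, S, a, c, hc, h1, h2⟩ := hp p hp1
      obtain ⟨G', hG'⟩ := BH_mk hG
      have h3 : ∀ j ∈ S, ∃ a' ∈ CA (SF X) G', ∀ z, evH z a' = a j z :=
        fun j hj => alg_mem SF_sub hG' (h2 j hj).1
      choose! a' ha' ha2 using h3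
      refine ⟨G', S, a', c, hc, ?_, fun j hj => ⟨ha' j hj, ?_⟩⟩
      · rw [hnear]
        filter_upwards [tendsto_comap.eventually h1] with z hz
        simp only [hF']
        exact hz
      · rw [hnear]
        refine ((h2 j hj).2.comp tendsto_comap).congr (fun z => ?_)
        rw [hF', ha2 j hj]
        rfl)
  have hgF : ∀ j, ∃ G : X → ℂ, G ∈ BH X ∧ ∀ z, evH z (g j) = G z := by
    intro j
    obtain ⟨G, hG, hG2⟩ := (g j).2
    refine ⟨G, ⟨hG, ‖g j‖, fun z hz => ?_⟩, hG2⟩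
    have h1 : evH ⟨z, hz⟩ (g j) = G z := hG2 ⟨z, hz⟩
    rw [← h1]
    exact evH_le _ _
  choose g' hg' hg2 using hgF
  refine ⟨g', hg', fun z hz => ?_⟩
  have h1 := congrArg (evH ⟨z, hz⟩) hg
  rw [map_sum, map_one] at h1
  rw [← h1]
  refine Finset.sum_congr rfl (fun j _ => ?_)
  rw [map_mul, hF', hg2]

end Pool.Agent.Y263.GF
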